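import Pool.Agent.Run7.h312.TS.Defs

/-!
# Categories of motives over algebraic extensions of a finite field: definitions
-/

set_option autoImplicit false

open CategoryTheory Limits MonoidalCategory Pretriangulated Triangulated

namespace Pool.Agent.Run7.h312.TS

open Pool.Agent.Y116.MT Run7.h822.MT Pool.Agent.W495.FM

/-- A rigid tensor triangulated category. -/
structure TensorCat where
  /-- the objects -/
  C : Type
  [cat : Category.{0} C]
  [preadditive : Preadditive C]
  [zero : HasZeroObject C]
  [shift : HasShift C ℤ]
  [additive : ∀ n : ℤ, (shiftFunctor C n).Additive]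
  [pretriangulated : Pretriangulated C]
  [triangulated : IsTriangulated C]
  [monoidal : MonoidalCategory C]
  [symmetric : SymmetricCategory C]
  [tensor : TensorTriangulated C]
  [monoidalPreadditive : MonoidalPreadditive C]
  [rigid : RightRigidCategory C]

attribute [instance] TensorCat.cat TensorCat.preadditive TensorCat.zero TensorCat.shift
  TensorCat.additive TensorCat.pretriangulated TensorCat.triangulated TensorCat.monoidal
  TensorCat.symmetric TensorCat.tensor TensorCat.monoidalPreadditive TensorCat.rigid

/-- A rigid tensor triangulated category of motives over a finite field `k`: it has rational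
coefficients and splitting idempotents, realisations `R l`, and the Frobenius `φ` on the cohomology
of one realisation `R l₀`. -/
structure FiniteFieldCat (Λ : Type) (E : Λ → Type) [∀ l, Field (E l)] (l₀ : Λ) extends
    TensorCat where
  [linear : Linear ℚ C]
  [idempotents : IsIdempotentComplete C]
  /-- the realisations -/
  R : ∀ l, Realisation C (E l)
  /-- the Frobenius -/
  φ : (R l₀).H ⟶ (R l₀).H
  frobenius : IsFrobenius (R l₀) φ

attribute [instance] FiniteFieldCat.linear FiniteFieldCat.idempotents

/-- The property `P` of the motivic and `ℓ`-adic homology groups of the objects (like being the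
motive of an abelian variety of a certain kind) holds for generators of the category: it is
generated by twists of objects with the property `P`. -/
def FiniteFieldCat.GeneratedBy {Λ : Type} {E : Λ → Type} [∀ l, Field (E l)] {l₀ : Λ}
    [CharZero (E l₀)] (M : FiniteFieldCat Λ E l₀)
    (P : ∀ (Ω : Type) [Field Ω] [CharZero Ω] (V : Type), Homology Ω V → V → Prop) : Prop :=
  ∃ (S : ObjectProperty M.C) (tw : ℤ → M.C), IsGeneratedBy S tw M.R ∧
    ∀ X, S X → P (E l₀) M.C (homology (M.R l₀) M.φ tw) X

/-- `D`, with the realisations `R`, is the union of the categories `M j`: there are functors `F j`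
from `M j` to `D` that are additive, commute with shifts and are compatible with the cohomology, and
every morphism of `D` comes from one of the categories `M j`. For motives over a field `k` that is
algebraic over a finite field, the `M j` are the categories for the finite subfields of `k`, and
`F j` is the extension of the ground field. -/
def IsUnion {Λ : Type} {E : Λ → Type} [∀ l, Field (E l)] {l₀ : Λ} {J : Type}
    (M : J → FiniteFieldCat Λ E l₀) (D : TensorCat) (R : ∀ l, Realisation D.C (E l)) : Prop :=
  ∃ (F : ∀ j, (M j).C ⥤ D.C) (_ : ∀ j, (F j).Additive) (_ : ∀ j, (F j).CommShift ℤ),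
    (∀ (j : J) (l : Λ), Nonempty (F j ⋙ (R l).H ≅ ((M j).R l).H)) ∧
    ∀ (Y Y' : D.C) (f : Y ⟶ Y'), ∃ (j : J) (X X' : (M j).C) (g : X ⟶ X') (e : (F j).obj X ≅ Y)
      (e' : (F j).obj X' ≅ Y'), (F j).map g ≫ e'.hom = e.hom ≫ f

/-- Motivic t-structures exist on the categories of motives over algebraic extensions `k` of a
finite field that are generated by objects with the property `P` (a property of the motivic and
`ℓ`-adic homology groups, like being the motive of an abelian variety of a certain kind): let
`M j` (`j : J`) be categories of motives over finite fields (the finite subfields of `k`), generated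
by twists of objects with the property `P`, and let the rigid tensor triangulated category `D` with
realisations `R l` be the union of the `M j`. Then `D` has a t-structure which is motivic for all
`R l` at once, and all morphisms of `D` are von Neumann regular. (For a finite field `k` let `J` have
one element and `D = M j`.) -/
def ExistsFor (P : ∀ (Ω : Type) [Field Ω] [CharZero Ω] (V : Type), Homology Ω V → V → Prop) :
    Prop :=
  ∀ (Λ : Type) (E : Λ → Type) [∀ l, Field (E l)] (l₀ : Λ) [CharZero (E l₀)] [IsAlgClosed (E l₀)]
    (J : Type) (M : J → FiniteFieldCat Λ E l₀) (D : TensorCat) (R : ∀ l, Realisation D.C (E l)),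
    (∀ j, (M j).GeneratedBy P) → IsUnion M D R →
    (∃ t : TStructure D.C, IsMotivic t R) ∧
      ∀ (X Y : D.C) (f : X ⟶ Y), ∃ g : Y ⟶ X, f ≫ g ≫ f = f

end Pool.Agent.Run7.h312.TS
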