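import Pool.Agent.Run7.h312.TS.Main
import Pool.Agent.Run7.h312.TS.LimDefs

/-!
# Existence of motivic t-structures on categories of motives over algebraic extensions of finite
# fields
-/

set_option autoImplicit false
set_option linter.unusedSectionVars false
set_option backward.isDefEq.respectTransparency false
set_option backward.defeqAttrib.useBackward true

open CategoryTheory Limits MonoidalCategory Pretriangulated Triangulated

namespace Pool.Agent.Run7.h312.TS

open Pool.Agent.Y116.MT Run7.h822.MT Pool.Agent.W495.FM Pool.Agent.V1178.MT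

section

variable {C : Type} [Category.{0} C] [Preadditive C] [HasZeroObject C] [HasShift C ℤ]
  [∀ n : ℤ, (shiftFunctor C n).Additive] [Pretriangulated C] [MonoidalCategory C]
  [SymmetricCategory C] [TensorTriangulated C]
  {D : Type} [Category.{0} D] [Preadditive D] [HasZeroObject D] [HasShift D ℤ]
  [∀ n : ℤ, (shiftFunctor D n).Additive] [Pretriangulated D]
  [MonoidalCategory D] [SymmetricCategory D] [TensorTriangulated D]
  {E : Type} [Field E] {R : Realisation C E} {R' : Realisation D E} {F : C ⥤ D} [F.Additive]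
  [F.CommShift ℤ] (α : F ⋙ R'.H ≅ R.H)

include α

/-- The cohomology of the image of an object. -/
noncomputable def hIso (X : C) (i : ℤ) : R'.H.obj ((F.obj X)⟦i⟧) ≅ R.H.obj (X⟦i⟧) :=
  R'.H.mapIso ((F.commShiftIso i).app X).symm ≪≫ α.app (X⟦i⟧)

lemma isIso_iff {X Y : C} (f : X ⟶ Y) (i : ℤ) :
    IsIso (R'.H.map ((F.map f)⟦i⟧')) ↔ IsIso (R.H.map (f⟦i⟧')) := by
  have h1 := NatIso.isIso_map_iff (Functor.isoWhiskerRight (F.commShiftIso i) R'.H) f
  have h2 := NatIso.isIso_map_iff α (f⟦i⟧')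
  exact h1.symm.trans h2

lemma trunc_transport {X A : C} {f : A ⟶ X} (h : LooksLikeTruncation R f) {Y : D}
    (e : F.obj X ≅ Y) : LooksLikeTruncation R' (F.map f ≫ e.hom) := by
  constructor
  · intro i hi
    exact (h.pos i hi).of_iso (hIso α A i)
  · intro i hi
    have h1 := (isIso_iff α f i).2 (h.nonpos i hi)
    rw [Functor.map_comp, Functor.map_comp]
    infer_instance

lemma zero_transport (hc : Conservative R) {X : C} {Y : D} (e : F.obj X ≅ Y)
    (hY : ∀ i : ℤ, IsZero (R'.H.obj (Y⟦i⟧))) : IsZero Y := by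
  have h1 : IsZero X := hc X fun i => (hY i).of_iso ((hIso α X i).symm ≪≫
    R'.H.mapIso ((shiftFunctor D i).mapIso e))
  exact (F.map_isZero h1).of_iso e.symm

end

section

variable {C : Type} [Category.{0} C] [Preadditive C] [HasZeroObject C] [HasShift C ℤ]
  [∀ n : ℤ, (shiftFunctor C n).Additive] [Pretriangulated C] [MonoidalCategory C]
  [SymmetricCategory C] [TensorTriangulated C] [Linear ℚ C]
  {Ω : Type} [Field Ω] [CharZero Ω] {R : Realisation C Ω} {φ : R.H ⟶ R.H}

theorem isHomology (hφ : IsFrobenius R φ) (tw : ℤ → C) : IsHomology (homology R φ tw) where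
  finite _ _ _ := R.finite _
  lin X i j := ⟨(φ.app ((X ⊗ tw (-j))⟦-i⟧)).hom, fun _ => rfl⟩
  add _ _ _ := rg_add R
  frob_reg _ _ _ x := frob_rg R hφ x

end

/-- The properties which imply the conjecture of Tate and Beilinson. -/
theorem existsFor_of {P : ∀ (Ω : Type) [Field Ω] [CharZero Ω] (V : Type), Homology Ω V → V → Prop}
    (h : ∀ (Ω : Type) [Field Ω] [IsAlgClosed Ω] [CharZero Ω] (V : Type) (T : Homology Ω V),
      IsHomology T → ∀ X : V, P Ω V T X → TB T X) : ExistsFor P := by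
  intro Λ E _ l₀ _ _ J M D R' hM hU
  obtain ⟨F, hadd, hcs, hcoh, hmor⟩ := hU
  have key : ∀ j, Conservative ((M j).R l₀) ∧
      (∀ X : (M j).C, ∃ (A : (M j).C) (f : A ⟶ X), ∀ l, LooksLikeTruncation ((M j).R l) f) ∧
      ∀ (X Y : (M j).C) (f : X ⟶ Y), ∃ g : Y ⟶ X, f ≫ g ≫ f = f := by
    intro j
    obtain ⟨S, tw, hS, hP⟩ := hM j
    exact of_tb (M j).frobenius hS fun X hX =>
      h _ _ _ (isHomology (M j).frobenius tw) X (hP X hX)
  have α : ∀ j l, F j ⋙ (R' l).H ≅ ((M j).R l).H := fun j l => Classical.choice (hcoh j l)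
  refine ⟨exists_of_trunc (l₀ := l₀) ?_ ?_, ?_⟩
  · intro Y hY
    obtain ⟨j, X, _, _, e, _, _⟩ := hmor Y Y (𝟙 Y)
    exact zero_transport (α j l₀) (key j).1 e hY
  · intro Y
    obtain ⟨j, X, _, _, e, _, _⟩ := hmor Y Y (𝟙 Y)
    obtain ⟨A, f, hf⟩ := (key j).2.1 X
    exact ⟨(F j).obj A, (F j).map f ≫ e.hom, fun l => trunc_transport (α j l) (hf l) e⟩
  · intro Y Y' f
    obtain ⟨j, X, X', g, e, e', he⟩ := hmor Y Y' f
    obtain ⟨g', hg'⟩ := (key j).2.2 X X' g
    refine ⟨e'.inv ≫ (F j).map g' ≫ e.hom, ?_⟩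
    have h1 : f = e.inv ≫ (F j).map g ≫ e'.hom := by rw [he, Iso.inv_hom_id_assoc]
    rw [h1]
    simp only [Category.assoc, Iso.hom_inv_id_assoc]
    rw [← Functor.map_comp_assoc, ← Functor.map_comp_assoc, Category.assoc, hg']

end Pool.Agent.Run7.h312.TS
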