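import Pool.Agent.Run7.h312.TS.DivMain
import Pool.Agent.Run7.h312.TS.Final

/-!
# Categories generated by abelian varieties with given slope types
-/

set_option autoImplicit false
set_option linter.all false

namespace Pool.Agent.Run7.h312.TS

open Pool.Agent.W495.TA Module Pool.Agent.W495.FM Pool.Agent.TH117.BL NumberField
  Pool.Agent.H204R3.CM Pool.Agent.H977R3.CM Pool.Agent.TH170 Pool.Agent.TH170.GS
  Pool.Agent.TH170.FW
open scoped TensorProduct

noncomputable section

variable {p : ℕ} [Fact p.Prime] {ν : PadicAlgCl p ≃+* ℂ} {Ω : Type} [Field Ω] [IsAlgClosed Ω]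
  [CharZero Ω] {Y : RedAV p ν}

theorem fr_of_isTate {j : ℕ} {f : Coh Ω Y (2 * j)} (hf : IsTate j f) :
    Fr f = (q Y : Ω) ^ j • f := by
  refine AlternatingMap.ext (M := TM Ω Y) fun v => ?_
  have h1 := hf v
  rw [mul_one] at h1
  refine Eq.trans ?_ (h1.trans ?_)
  · rfl
  · unfold q
    push_cast
    rfl

theorem isChow_of {C : Cycles Ω Y} (hC : IsChowRing C) (hrel : HasPairRelations Y) :
    IsChow C ∧ TateHolds C := by
  have h1 : ∀ (j : ℕ) (f : Coh Ω Y (2 * j)), IsTate j f →
      f ∈ Submodule.span Ω (Set.range (C.cl j)) := by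
    intro j f hf
    by_cases h0 : f = 0
    · rw [h0]
      exact Submodule.zero_mem _
    · exact hC.divisors j f (fr_of_isTate hf) (div_of_pairs hrel j f hf h0)
  exact ⟨{ toHasFrobenius := hC.toHasFrobenius
           toHasDuality := hC.toHasDuality
           toHasProducts := hC.toHasProducts
           nilpotent := hC.nilpotent
           algebraic := fun j f _ hf => h1 j f hf }, h1⟩

/-- Abelian varieties with slope types that are not degenerate. -/
theorem existsFor_slopeTypes {I : Type} [Fintype I] {K : I → Type}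
    [∀ i, Field (K i)] [∀ i, NumberField (K i)] [∀ i, IsCMField (K i)]
    {M : ∀ i, (K i →+* ℂ) → ℤ} {Φ : ∀ i, Set (K i →+* ℂ)}
    (hind : PairwiseIndep K) (hM : ∀ i φ, M i (ComplexEmbedding.conjugate φ) = M i φ)
    (hΦ : ∀ i, IsCMType (Φ i)) (hnd : ∀ i, Φ i ∉ degTypes (M i)) :
    ExistsFor fun _ _ _ _ T X => IsAbelianOfSlopeTypes ν K M Φ T X := by
  apply existsFor_of
  intro Ω _ _ _ V T hT X hX
  obtain ⟨Y, C, D, g, h1, hC, hD, hX⟩ := hX
  obtain ⟨hC', hT'⟩ := isChow_of hC (pairs_of_types hind hM hΦ hnd h1)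
  exact tb_abelian hT hC' hT' hD hX

end

end Pool.Agent.Run7.h312.TS
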