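import Pool.Agent.Y116.MT.Deg
import Pool.Agent.Run7.h822.MT.Defs
import Pool.Agent.W495.FM.HomDefs

/-!
# Tensor triangulated categories generated by motives over a finite field: definitions
-/

set_option autoImplicit false

open CategoryTheory Limits MonoidalCategory Pretriangulated Triangulated

namespace Pool.Agent.Run7.h312.TS

open Pool.Agent.Y116.MT Run7.h822.MT Pool.Agent.W495.FM

noncomputable section

open Functor.LaxMonoidal

universe v u w

section

variable {C : Type u} [Category.{v} C] [Preadditive C] [HasZeroObject C] [HasShift C ℤ]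
  [∀ n : ℤ, (shiftFunctor C n).Additive] [Pretriangulated C] [MonoidalCategory C]
  [SymmetricCategory C] [TensorTriangulated C]

/-- The endomorphism `φ` of the cohomology `H` (the Frobenius) is compatible with tensor
products and is the identity on the unit of the cohomology. -/
structure IsFrobenius {E : Type w} [Field E] (R : Realisation C E) (φ : R.H ⟶ R.H) : Prop where
  unit : ε R.H ≫ φ.app (𝟙_ C) = ε R.H
  tensor (X Y : C) : μ R.H X Y ≫ φ.app (X ⊗ Y) = (φ.app X ⊗ₘ φ.app Y) ≫ μ R.H X Y

/-- The Künneth components of the identity of `X` are given by endomorphisms of `X` which do not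
depend on the realisation: for all `j` there is an endomorphism of `X` which is the identity on
the cohomology of degree `j` and zero on the cohomology of all other degrees, for all `R l`. -/
def HasKunneth {Λ : Type*} {E : Λ → Type w} [∀ l, Field (E l)] (R : ∀ l, Realisation C (E l))
    (X : C) : Prop :=
  ∀ j : ℤ, ∃ e : X ⟶ X, ∀ l, (R l).H.map (e⟦j⟧') = 𝟙 _ ∧ ∀ i : ℤ, i ≠ j → (R l).H.map (e⟦i⟧') = 0

/-- `C` is generated, as a thick subcategory of itself, by the objects `X ⊗ tw n` where `X` has the
property `S` (the motives of some smooth projective varieties) and `tw n` are objects with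
cohomology in degree zero (the twists of the unit `𝟙(n)`); the Künneth components of `X`
are given by endomorphisms of `X`. -/
structure IsGeneratedBy (S : ObjectProperty C) (tw : ℤ → C) {Λ : Type*} {E : Λ → Type w}
    [∀ l, Field (E l)] (R : ∀ l, Realisation C (E l)) : Prop where
  deg (n : ℤ) (l : Λ) : (R l).Deg (tw n) 0
  kunneth (X : C) : S X → HasKunneth R X
  generates (P : ObjectProperty C) : IsThick P → (∀ (X : C) (n : ℤ), S X → P (X ⊗ tw n)) →
    ∀ X, P X

end

section

variable {C : Type} [Category.{0} C] [Preadditive C] [HasZeroObject C] [HasShift C ℤ]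
  [∀ n : ℤ, (shiftFunctor C n).Additive] [Pretriangulated C] [MonoidalCategory C]
  [SymmetricCategory C] [TensorTriangulated C] [Linear ℚ C]

/-- The regulator: the class in `H(W)` of a morphism `𝟙 ⟶ W`. -/
def rg {Ω : Type} [Field Ω] (R : Realisation C Ω) {W : C} (z : 𝟙_ C ⟶ W) : R.H.obj W :=
  (R.H.map z).hom ((ε R.H).hom (1 : Ω))

/-- Motivic and `ℓ`-adic homology of the objects of a category of motives: the motivic homology
`H_i(X, ℚ(j))` is the group of morphisms `𝟙 ⟶ X(-j)[-i]`, the `ℓ`-adic homology is
`H(X(-j)[-i])`. -/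
def homology {Ω : Type} [Field Ω] (R : Realisation C Ω) (φ : R.H ⟶ R.H) (tw : ℤ → C) :
    Homology Ω C where
  M X i j := 𝟙_ C ⟶ (X ⊗ tw (-j))⟦-i⟧
  E X i j := R.H.obj ((X ⊗ tw (-j))⟦-i⟧)
  frob X i j := (φ.app ((X ⊗ tw (-j))⟦-i⟧)).hom
  reg X i j := rg R

end

end

end Pool.Agent.Run7.h312.TS
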