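import Pool.Agent.W495.FM.HomDefs
import Pool.Agent.TH170.GS.Defs

/-!
# Abelian varieties over finite fields the Tate classes of which are polynomials in divisor classes:
# definitions
-/

set_option autoImplicit false

namespace Pool.Agent.Run7.h312.TS

open Pool.Agent.W495.TA Pool.Agent.W495.FM

noncomputable section

variable {p : ℕ} [Fact p.Prime] {ν : PadicAlgCl p ≃+* ℂ}

/-- The cohomology classes of the abelian variety `Y` (alternating forms in the variables `κ` on the
Tate module) which are linear combinations of products of Tate classes of degree two over finite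
extensions of the ground field. -/
inductive Div (Ω : Type) [Field Ω] [CharZero Ω] (Y : RedAV p ν) :
    (κ : Type) → ((TM Ω Y) [⋀^κ]→ₗ[Ω] Ω) → Prop
  /-- classes of degree zero -/
  | unit {κ : Type} [IsEmpty κ] (f : (TM Ω Y) [⋀^κ]→ₗ[Ω] Ω) : Div Ω Y κ f
  /-- Tate classes of degree two over the extension of degree `s` of the ground field: the `s`-th
  power of the Frobenius multiplies them by `q ^ s` -/
  | divisor (f : Coh Ω Y 2) (s : ℕ) (hs : 0 < s) (hf : Fr^[s] f = (q Y : Ω) ^ s • f) :
      Div Ω Y (Fin 2) f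
  | add {κ : Type} (f g : (TM Ω Y) [⋀^κ]→ₗ[Ω] Ω) (hf : Div Ω Y κ f) (hg : Div Ω Y κ g) :
      Div Ω Y κ (f + g)
  | smul {κ : Type} (c : Ω) (f : (TM Ω Y) [⋀^κ]→ₗ[Ω] Ω) (hf : Div Ω Y κ f) : Div Ω Y κ (c • f)
  /-- renaming of the variables -/
  | reindex {κ κ' : Type} (e : κ ≃ κ') (f : (TM Ω Y) [⋀^κ]→ₗ[Ω] Ω) (hf : Div Ω Y κ f) :
      Div Ω Y κ' (f.domDomCongr e)
  /-- cup products (up to a factor) -/
  | cup {κ κ' : Type} [Fintype κ] [DecidableEq κ] [Fintype κ'] [DecidableEq κ']
      (f : (TM Ω Y) [⋀^κ]→ₗ[Ω] Ω) (g : (TM Ω Y) [⋀^κ']→ₗ[Ω] Ω) (hf : Div Ω Y κ f)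
      (hg : Div Ω Y κ' g) (h : (TM Ω Y) [⋀^κ ⊕ κ']→ₗ[Ω] Ω)
      (hh : ∀ v : κ ⊕ κ' → TM Ω Y, h v = ∑ σ : Equiv.Perm (κ ⊕ κ'),
        ((Equiv.Perm.sign σ : ℤ) : Ω) *
          (f (fun k => v (σ (Sum.inl k))) * g (fun k => v (σ (Sum.inr k))))) :
      Div Ω Y (κ ⊕ κ') h

variable {Ω : Type} [Field Ω] [CharZero Ω]

/-- The properties of the theory of algebraic cycles modulo rational equivalence on the abelian variety
`Y` which are used here. -/
structure IsChowRing {Y : RedAV p ν} (C : Cycles Ω Y) : Prop extends HasFrobenius C, HasDuality C,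
    HasProducts C where
  /-- homologically trivial correspondences are nilpotent (Kimura; the Chow motives of abelian
  varieties are finite-dimensional) -/
  nilpotent : ∀ c, (∀ n f, C.actH n c f = 0) → IsNilpotent c
  /-- the Tate classes over the ground field that are linear combinations of products of Tate
  classes of degree two are linear combinations of classes of algebraic cycles (theorem of Tate) -/
  divisors : ∀ j f, Fr f = (q Y : Ω) ^ j • f → Div Ω Y (Fin (2 * j)) f →
    f ∈ Submodule.span Ω (Set.range (C.cl j))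

/-- The groups of motivic and of `ℓ`-adic homology of `X` are those of an abelian variety `Y` with the
slope types `Φ` (for the weights `M` and the fields `K`). -/
def IsAbelianOfSlopeTypes {p : ℕ} [Fact p.Prime] (ν : PadicAlgCl p ≃+* ℂ) {I : Type} (K : I → Type)
    [∀ i, Field (K i)] (M : ∀ i, (K i →+* ℂ) → ℤ) (Φ : ∀ i, Set (K i →+* ℂ)) {V : Type}
    (T : Homology Ω V) (X : V) : Prop :=
  ∃ (Y : RedAV p ν) (C : Cycles Ω Y) (D : Motivic C) (g : ℕ),
    Pool.Agent.TH170.GS.OfTypes K M Φ Y ∧ IsChowRing C ∧ IsMotivic D ∧ IsAbelian T X D g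

end

end Pool.Agent.Run7.h312.TS
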