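import Mathlib
import Pool.Agent.TH170.GS.Rel

/-!
# The relations between the Frobenius eigenvalues of abelian varieties with given slope types
# are products of relations between two eigenvalues
-/

set_option linter.unusedSectionVars false
set_option linter.unusedVariables false

namespace Pool.Agent.Run7.h312.TS

open NumberField Finset Module Pool.Agent.H204R3.CM Pool.Agent.H977R3.CM Pool.Agent.TH170.CM
  Pool.Agent.TH170.MF Pool.Agent.W495.TA Pool.Agent.TH117 Pool.Agent.TH170.FW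
  Pool.Agent.TH170.GS

section av

variable {p : ℕ} [Fact p.Prime] {ν : PadicAlgCl p ≃+* ℂ}

/-- All relations between the Frobenius eigenvalues are products of relations between at most two
eigenvalues and of inverses of such relations. -/
def HasPairRelations (Z : RedAV p ν) : Prop :=
  ∀ e : BL.Emb Z → ℕ, BL.IsRel Z e → (fun w => (e w : ℤ)) ∈ AddSubgroup.closure
    {d : BL.Emb Z → ℤ | ∃ n : BL.Emb Z → ℕ, BL.IsRel Z n ∧ (∑ w, n w ≤ 2) ∧ ∀ w, d w = n w}

theorem single_mem2 {Z : RedAV p ν} [DecidableEq (BL.Emb Z)] (w : BL.Emb Z)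
    (h : ∃ s : ℕ, 0 < s ∧ Z.π w.1 ^ (2 * s) = ((p : (Z.X.factor w.1).E) ^ Z.a) ^ s) :
    (Pi.single w 1 : BL.Emb Z → ℤ) ∈ AddSubgroup.closure
      {d : BL.Emb Z → ℤ | ∃ n : BL.Emb Z → ℕ, BL.IsRel Z n ∧ (∑ w, n w ≤ 2) ∧
        ∀ w, d w = n w} := by
  have hsum : ∑ v, (Pi.single w 1 : BL.Emb Z → ℕ) v = 1 := by
    simp only [Finset.sum_pi_single', mem_univ, if_true]
  refine AddSubgroup.subset_closure ⟨Pi.single w 1, isRel_single w h,
    hsum.le.trans one_le_two, fun v => ?_⟩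
  simp only [Pi.single_apply]
  split_ifs <;> simp

/-- A relation with two eigenvalues. -/
theorem pair_mem2 {Z : RedAV p ν} [DecidableEq (BL.Emb Z)] (w w' : BL.Emb Z)
    (h : ∀ σ : ℂ ≃+* ℂ, dev Z σ w + dev Z σ w' = 0) :
    (Pi.single w 1 + Pi.single w' 1 : BL.Emb Z → ℤ) ∈ AddSubgroup.closure
      {d : BL.Emb Z → ℤ | ∃ n : BL.Emb Z → ℕ, BL.IsRel Z n ∧ (∑ w, n w ≤ 2) ∧
        ∀ w, d w = n w} := by
  classical
  have hsum : ∑ v, (Pi.single w 1 + Pi.single w' 1 : BL.Emb Z → ℕ) v = 2 := by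
    simp only [Pi.add_apply, sum_add_distrib, Finset.sum_pi_single', mem_univ, if_true]
  refine AddSubgroup.subset_closure ⟨Pi.single w 1 + Pi.single w' 1, ?_, hsum.le,
    fun v => ?_⟩
  · have hne : Nonempty Z.X.I := ⟨w.1⟩
    obtain ⟨L, _, _, _, _, j, hj⟩ := Pool.Agent.W547.KB.exists_cm Z.X
    have hbij := BL.toEmb_bijective (j := j) (Z := Z) hj
    let E : Pool.Agent.W547.KB.Wt Z.X L ≃ BL.Emb Z := Equiv.ofBijective _ hbij
    let _ : Fintype (Pool.Agent.W547.KB.Wt Z.X L) := Fintype.ofEquiv _ E.symm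
    refine (BL.isRel_iff (Z := Z) (j := j) hj _).2 fun g => ?_
    obtain ⟨σ, hσ⟩ := exists_aut j (g : L ≃+* L)
    have hp1 : (1 : ℝ) < p := by exact_mod_cast (Fact.out : p.Prime).one_lt
    have hNp : ‖(p : PadicAlgCl p)‖ = (p : ℝ)⁻¹ := by
      have h2 : (p : PadicAlgCl p) = ((p : ℚ_[p]) : PadicAlgCl p) := by
        rw [map_natCast]
      rw [h2, PadicAlgCl.norm_extends, Padic.norm_p]
    have key : ∀ v : Pool.Agent.W547.KB.Wt Z.X L,
        (Nat.card (W495.TA.Dec p ν j) : ℝ) * dev Z σ (BL.toEmb j Z v) =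
          Z.a * ((BL.tw p ν j Z.X v g : ℤ) : ℝ) := by
      intro v
      have h1 := BL.norm_pow_two_card (Z := Z) (j := j) hj v g
      have hlp : Real.log p ≠ 0 := (Real.log_pos hp1).ne'
      have h2 := congrArg (fun x => Real.log x / Real.log p) h1
      beta_reduce at h2
      rw [Real.log_zpow, Real.log_zpow, hNp, Real.log_inv, mul_div_assoc, mul_div_assoc,
        neg_div, div_self hlp] at h2
      change _ * Real.logb p _ = _ at h2
      have h3 : ν.symm (σ (BL.eig Z (BL.toEmb j Z v))) = ν.symm (j (g (v.2 (Z.π v.1)))) :=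
        congrArg ν.symm (hσ (v.2 (Z.π v.1)))
      unfold dev
      rw [h3]
      push_cast at h2
      linarith
    have ha : (Z.a : ℝ) ≠ 0 := Nat.cast_ne_zero.2 Z.pos.ne'
    have h4 := h σ
    obtain ⟨v, rfl⟩ := hbij.2 w
    obtain ⟨v', rfl⟩ := hbij.2 w'
    have h5 : ((BL.tw p ν j Z.X v g : ℤ) : ℝ) + ((BL.tw p ν j Z.X v' g : ℤ) : ℝ) = 0 := by
      have h6 : (Z.a : ℝ) * (((BL.tw p ν j Z.X v g : ℤ) : ℝ) +
          ((BL.tw p ν j Z.X v' g : ℤ) : ℝ)) = 0 := by
        rw [mul_add, ← key, ← key, ← mul_add, h4, mul_zero]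
      exact (mul_eq_zero.1 h6).resolve_left ha
    have h6 : ∀ u : Pool.Agent.W547.KB.Wt Z.X L,
        ((((Pi.single (BL.toEmb j Z v) 1 + Pi.single (BL.toEmb j Z v') 1 : BL.Emb Z → ℕ)
          (BL.toEmb j Z u) : ℕ) : ℤ) * BL.tw p ν j Z.X u g) =
        (if u = v then BL.tw p ν j Z.X u g else 0) +
          (if u = v' then BL.tw p ν j Z.X u g else 0) := by
      intro u
      rw [Pi.add_apply, Pi.single_apply, Pi.single_apply]
      simp only [hbij.1.eq_iff]
      split_ifs <;> (simp; try ring)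
    rw [sum_congr rfl fun u _ => h6 u, sum_add_distrib, sum_ite_eq' univ v,
      sum_ite_eq' univ v', if_pos (mem_univ _), if_pos (mem_univ _)]
    exact_mod_cast h5
  · rw [Pi.add_apply, Pi.add_apply, Nat.cast_add]
    simp only [Pi.single_apply]
    split_ifs <;> simp


end av

section main

variable {p : ℕ} [Fact p.Prime] {ν : PadicAlgCl p ≃+* ℂ} {I : Type} [Fintype I] {K : I → Type}
  [∀ i, Field (K i)] [∀ i, NumberField (K i)] [∀ i, IsCMField (K i)]

/-- All relations between the Frobenius eigenvalues of an abelian variety whose slope types are not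
degenerate are elementary. -/
theorem pairs_of_types (hind : PairwiseIndep K) {M : ∀ i, (K i →+* ℂ) → ℤ}
    (hM : ∀ i φ, M i (ComplexEmbedding.conjugate φ) = M i φ)
    {Φ : ∀ i, Set (K i →+* ℂ)} (hΦ : ∀ i, IsCMType (Φ i)) (hnd : ∀ i, Φ i ∉ degTypes (M i))
    {Y : RedAV p ν} (hY : OfTypes K M Φ Y) : HasPairRelations Y := by
  classical
  intro e he
  obtain ⟨κ, hκ, hY⟩ := hY
  let S : Y.X.I → Prop := fun k =>
    ∃ s : ℕ, 0 < s ∧ Y.π k ^ (2 * s) = ((p : (Y.X.factor k).E) ^ Y.a) ^ s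
  have hY' : ∀ k, ¬ S k → ∃ (i : I) (θ : K i →+* (Y.X.factor k).E) (x : K i) (s : ℕ), 0 < s ∧
      θ x = Y.π k ^ s ∧ ∀ φ : K i →+* ℂ, 2 * (- Real.logb p ‖ν.symm (φ x)‖) - s * Y.a =
        s * κ i * (if φ ∈ Φ i then (M i φ : ℝ) else - M i φ) := fun k hk =>
    (hY k).resolve_left hk
  choose t θ x s hs hθ hsl using hY'
  let ε : ∀ i, (K i →+* ℂ) → ℝ := fun i φ => ((Pool.Agent.TH170.CM.sgn (Φ i) φ * M i φ : ℤ) : ℝ)
  have hεc : ∀ i φ, ε i (ComplexEmbedding.conjugate φ) = - ε i φ := by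
    intro i φ
    simp only [ε]
    rw [hM, (oddSign_sgn (hΦ i)).2]
    push_cast
    ring
  let X : Type := Σ i, (K i →+* ℂ)
  let inv : X → X := fun z => ⟨z.1, ComplexEmbedding.conjugate z.2⟩
  have hinv : ∀ z, inv (inv z) = z := by
    rintro ⟨i, φ⟩
    simp only [inv, conj_conj]
  let F : BL.Emb Y → Option X := fun w =>
    if h : S w.1 then none else some ⟨t w.1 h, w.2.comp (θ w.1 h)⟩
  have hF1 : ∀ w, S w.1 → F w = none := fun w h => dif_pos h
  have hF2 : ∀ w (h : ¬ S w.1), F w = some ⟨t w.1 h, w.2.comp (θ w.1 h)⟩ := fun w h => dif_neg h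
  have hFc : ∀ w z, F w = some z → F (conjE w) = some (inv z) := by
    intro w z hz
    by_cases h : S w.1
    · rw [hF1 w h] at hz
      exact absurd hz (by simp)
    · rw [hF2 w h] at hz
      rw [← Option.some.inj hz, hF2 (conjE w) h]
      rfl
  -- the slopes
  have hdev0 : ∀ w, F w = none → ∀ σ, dev Y σ w = 0 := by
    intro w hw σ
    have h : S w.1 := by
      by_contra h
      rw [hF2 w h] at hw
      exact absurd hw (by simp)
    have h1 := sum_dev_of_isRel (isRel_single w h) σ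
    rw [sum_eq_single w] at h1
    · rwa [Pi.single_eq_same, Nat.cast_one, one_mul] at h1
    · intro v _ hv
      rw [Pi.single_eq_of_ne hv, Nat.cast_zero, zero_mul]
    · intro h
      exact absurd (mem_univ _) h
  have hdev : ∀ w z, F w = some z → ∀ σ : ℂ ≃+* ℂ,
      dev Y σ w = κ z.1 * ε z.1 ((σ : ℂ →+* ℂ).comp z.2) := by
    intro w z hz σ
    by_cases h : S w.1
    · rw [hF1 w h] at hz
      exact absurd hz (by simp)
    · rw [hF2 w h] at hz
      rw [← Option.some.inj hz]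
      have h1 := hsl w.1 h ((σ : ℂ →+* ℂ).comp (w.2.comp (θ w.1 h)))
      have h2 : ((σ : ℂ →+* ℂ).comp (w.2.comp (θ w.1 h))) (x w.1 h) =
          σ (BL.eig Y w) ^ s w.1 h := by
        change σ (w.2 (θ w.1 h (x w.1 h))) = _
        rw [hθ, map_pow, map_pow]
        rfl
      rw [h2, map_pow, norm_pow, Real.logb_pow] at h1
      have hs0 : (s w.1 h : ℝ) ≠ 0 := Nat.cast_ne_zero.2 (hs w.1 h).ne'
      apply mul_left_cancel₀ hs0
      have h3 : (s w.1 h : ℝ) * dev Y σ w =
          2 * (-(s w.1 h * Real.logb p ‖ν.symm (σ (BL.eig Y w))‖)) - s w.1 h * Y.a := by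
        unfold dev
        ring
      rw [h3, h1, mul_assoc]
      congr 2
      simp only [ε, Pool.Agent.TH170.CM.sgn]
      split_ifs
      · push_cast
        ring
      · push_cast
        ring
  -- the antisymmetric exponents
  let a : ∀ i, (K i →+* ℂ) → ℝ := fun i φ =>
    ∑ w : BL.Emb Y, (e w : ℝ) * ((if F w = some ⟨i, φ⟩ then 1 else 0) -
      (if F w = some ⟨i, ComplexEmbedding.conjugate φ⟩ then 1 else 0))
  let c : ∀ i, (K i →+* ℂ) → ℝ := fun i φ => κ i * a i φ
  have hc : ∀ i φ, c i (ComplexEmbedding.conjugate φ) = - c i φ := by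
    intro i φ
    simp only [c, a]
    rw [conj_conj, ← mul_neg, ← sum_neg_distrib]
    congr 1
    exact sum_congr rfl fun w _ => by ring
  have hrel' : ∀ σ : ℂ ≃+* ℂ, ∑ i, ∑ φ : K i →+* ℂ, c i φ *
      ((Pool.Agent.TH170.CM.sgn (Φ i) ((σ : ℂ →+* ℂ).comp φ) * M i ((σ : ℂ →+* ℂ).comp φ) : ℤ) : ℝ) = 0 := by
    intro σ
    have h1 : ∑ i, ∑ φ : K i →+* ℂ, c i φ *
        ((Pool.Agent.TH170.CM.sgn (Φ i) ((σ : ℂ →+* ℂ).comp φ) * M i ((σ : ℂ →+* ℂ).comp φ) : ℤ) : ℝ) =
        ∑ z : X, ∑ w : BL.Emb Y, (e w : ℝ) * (((if F w = some z then 1 else 0) -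
          (if F w = some (inv z) then 1 else 0)) *
            (κ z.1 * ε z.1 ((σ : ℂ →+* ℂ).comp z.2))) := by
      rw [← Finset.univ_sigma_univ, Finset.sum_sigma]
      refine sum_congr rfl fun i _ => sum_congr rfl fun φ _ => ?_
      simp only [c, a]
      rw [mul_sum, sum_mul]
      refine sum_congr rfl fun w _ => ?_
      simp only [ε, inv]
      ring
    rw [h1, sum_comm]
    have h2 : ∀ w : BL.Emb Y, ∑ z : X, (e w : ℝ) * (((if F w = some z then 1 else 0) -
          (if F w = some (inv z) then 1 else 0)) *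
            (κ z.1 * ε z.1 ((σ : ℂ →+* ℂ).comp z.2))) = 2 * ((e w : ℝ) * dev Y σ w) := by
      intro w
      rw [← mul_sum]
      rcases hw : F w with _ | z
      · rw [hdev0 w hw]
        simp
      · have h3 : ∀ z' : X, (((if some z = some z' then (1 : ℝ) else 0) -
            (if some z = some (inv z') then 1 else 0)) *
              (κ z'.1 * ε z'.1 ((σ : ℂ →+* ℂ).comp z'.2))) =
            (if z = z' then κ z'.1 * ε z'.1 ((σ : ℂ →+* ℂ).comp z'.2) else 0) -
              (if inv z = z' then κ z'.1 * ε z'.1 ((σ : ℂ →+* ℂ).comp z'.2) else 0) := by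
          intro z'
          have h4 : (z = inv z') ↔ (inv z = z') :=
            ⟨fun h => by rw [h, hinv], fun h => by rw [← h, hinv]⟩
          simp only [Option.some_inj, h4]
          split_ifs <;> ring
        rw [sum_congr rfl fun z' _ => h3 z', sum_sub_distrib, sum_ite_eq univ z,
          sum_ite_eq univ (inv z), if_pos (mem_univ _), if_pos (mem_univ _), hdev w z hw σ]
        have h5 : ε (inv z).1 ((σ : ℂ →+* ℂ).comp (inv z).2) =
            - ε z.1 ((σ : ℂ →+* ℂ).comp z.2) := by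
          change ε z.1 ((σ : ℂ →+* ℂ).comp (ComplexEmbedding.conjugate z.2)) = _
          rw [Pool.Agent.TH170.QC.comp_conj, hεc]
        have h6 : κ (inv z).1 = κ z.1 := rfl
        rw [h5, h6]
        ring
    rw [sum_congr rfl fun w _ => h2 w, ← mul_sum, sum_dev_of_isRel he, mul_zero]
  have h0 : ∀ i φ, a i φ = 0 := fun i φ =>
    (mul_eq_zero.1 (trivial_real hind hM hΦ hnd c hc hrel' i φ)).resolve_left (hκ i)
  refine mem_of_symm _ F inv hinv ?_ ?_ ?_ ?_ (fun w => (e w : ℤ)) ?_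
  · rintro ⟨i, φ⟩ h
    exact conj_ne φ (eq_of_heq (Sigma.mk.inj h).2)
  · intro w hw
    apply single_mem2
    by_contra h
    have h1 := hF2 w h
    rw [hw] at h1
    exact absurd h1 (by simp)
  · intro w w' z hz hz'
    refine pair_mem2 w w' fun σ => ?_
    rw [hdev w z hz, hdev w' (inv z) hz']
    have h5 : ε (inv z).1 ((σ : ℂ →+* ℂ).comp (inv z).2) =
        - ε z.1 ((σ : ℂ →+* ℂ).comp z.2) := by
      change ε z.1 ((σ : ℂ →+* ℂ).comp (ComplexEmbedding.conjugate z.2)) = _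
      rw [Pool.Agent.TH170.QC.comp_conj, hεc]
    have h6 : κ (inv z).1 = κ z.1 := rfl
    rw [h5, h6]
    ring
  · intro w z hz
    exact ⟨conjE w, hFc w z hz⟩
  · rintro ⟨i, φ⟩
    have h1 := h0 i φ
    simp only [a, mul_sub, mul_ite, mul_one, mul_zero, sum_sub_distrib] at h1
    have h2 := sub_eq_zero.1 h1
    have h3 : ((∑ w, (if F w = some ⟨i, φ⟩ then (e w : ℤ) else 0) : ℤ) : ℝ) =
        ((∑ w, (if F w = some (inv ⟨i, φ⟩) then (e w : ℤ) else 0) : ℤ) : ℝ) := by
      push_cast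
      exact h2
    exact_mod_cast h3

end main

end Pool.Agent.Run7.h312.TS
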