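import Pool.Agent.Run7.h312.TS.Div
import Pool.Agent.Run7.h312.TS.DivRel
import Pool.Agent.TH117.GN.Main

/-!
# Abelian varieties over finite fields the Tate classes of which are polynomials in divisor classes
-/

set_option autoImplicit false
set_option linter.all false

namespace Pool.Agent.Run7.h312.TS

open NumberField Pool.Agent.H204R3.CM Pool.Agent.W547.KB Pool.Agent.W547.LD Pool.Agent.W495.TA Module
  Pool.Agent.W495.FM Pool.Agent.TH117.BL Pool.Agent.W495.TB Pool.Agent.W495.TC Pool.Agent.TH117.F5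
open scoped TensorProduct

noncomputable section

/-! ### Matching -/

section comb

variable {G : Type} {Q : (κ : Type) → (κ → G → ℤ) → Prop}

theorem closed_match (hQ : Closed G Q) : ∀ (n : ℕ) (κ : Type) [Fintype κ] (t : κ → G → ℤ),
    Fintype.card κ = 2 * n → (∀ f, dcnt t f = 0) → Q κ t := by
  classical
  intro n
  induction n with
  | zero =>
    intro κ _ t hc _
    have : IsEmpty κ := Fintype.card_eq_zero_iff.1 (by simpa using hc)
    exact hQ.empty κ t
  | succ n ih =>
    intro κ _ t hc h0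
    obtain ⟨k0, k1, hk, hs⟩ : ∃ k0 k1, k0 ≠ k1 ∧ t k1 = -t k0 := by
      by_cases h : ∃ k0, t k0 ≠ 0
      · obtain ⟨k0, hk0⟩ := h
        have h1 := h0 (t k0)
        unfold dcnt at h1
        have h2 : 0 < Nat.card {k // t k = t k0} := Nat.card_pos_iff.2 ⟨⟨k0, rfl⟩, inferInstance⟩
        have h3 : 0 < Nat.card {k // t k = -t k0} := by omega
        obtain ⟨⟨⟨k1, hk1⟩⟩, _⟩ := Nat.card_pos_iff.1 h3
        refine ⟨k0, k1, ?_, hk1⟩
        rintro rfl
        apply hk0
        funext g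
        have h4 := congrFun hk1 g
        rw [Pi.neg_apply] at h4
        rw [Pi.zero_apply]
        omega
      · push Not at h
        obtain ⟨k0, k1, hk⟩ := Fintype.exists_pair_of_one_lt_card (α := κ) (by omega)
        exact ⟨k0, k1, hk, by rw [h, h, neg_zero]⟩
    let κ' : Type := {k : κ // k ≠ k0 ∧ k ≠ k1}
    let i : κ' ⊕ Fin 2 → κ := Sum.elim Subtype.val ![k0, k1]
    have hi : Function.Bijective i := by
      constructor
      · rintro (⟨a, ha⟩ | a) (⟨b, hb⟩ | b) hab
        · exact congrArg Sum.inl (Subtype.ext hab)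
        · exfalso
          fin_cases b
          · exact ha.1 hab
          · exact ha.2 hab
        · exfalso
          fin_cases a
          · exact hb.1 hab.symm
          · exact hb.2 hab.symm
        · congr 1
          fin_cases a <;> fin_cases b
          · rfl
          · exact absurd hab hk
          · exact absurd hab hk.symm
          · rfl
      · intro k
        by_cases h1 : k = k0
        · exact ⟨Sum.inr 0, h1.symm⟩
        by_cases h2 : k = k1
        · exact ⟨Sum.inr 1, h2.symm⟩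
        exact ⟨Sum.inl ⟨k, h1, h2⟩, rfl⟩
    let e : κ' ⊕ Fin 2 ≃ κ := Equiv.ofBijective i hi
    have hcard : Fintype.card κ' = 2 * n := by
      have h1 := Fintype.card_congr e
      rw [Fintype.card_sum, Fintype.card_fin] at h1
      omega
    have hcount : ∀ f, (Nat.card {k // t k = f} : ℤ) = Nat.card {k : κ' // t k.1 = f} +
        ((if t k0 = f then 1 else 0) + (if t k1 = f then 1 else 0)) := by
      intro f
      rw [card_eq_sum, card_eq_sum, ← Equiv.sum_comp e, Fintype.sum_sum_type, Fin.sum_univ_two]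
      rfl
    refine hQ.reindex (κ' ⊕ Fin 2) κ e (Sum.elim (fun k : κ' => t k.1) ![t k0, -t k0]) t ?_
      (hQ.sum _ _ _ _ (ih κ' (fun k => t k.1) hcard ?_) (hQ.pair (t k0)))
    · rintro (k | k)
      · rfl
      · fin_cases k
        · rfl
        · exact hs
    · intro f
      have h1 := h0 f
      unfold dcnt at h1 ⊢
      rw [hcount f, hcount (-f), hs] at h1
      simp only [neg_inj, neg_eq_iff_eq_neg (b := f)] at h1
      linarith

end comb

/-! ### Monomials -/

section mono

variable {p : ℕ} [Fact p.Prime] {ν : PadicAlgCl p ≃+* ℂ} {Ω : Type} [Field Ω] [CharZero Ω]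
  {Y : RedAV p ν}

theorem Fr_iterate_apply {n : ℕ} (s : ℕ) (f : (TM Ω Y) [⋀^Fin n]→ₗ[Ω] Ω) (v : Fin n → TM Ω Y) :
    (show (TM Ω Y) [⋀^Fin n]→ₗ[Ω] Ω from (Fr^[s] (show Coh Ω Y n from f))) v =
      f (fun k => (F Ω Y ^ s) (v k)) := by
  induction s generalizing v with
  | zero => rfl
  | succ s ih =>
    rw [Function.iterate_succ_apply']
    change (show (TM Ω Y) [⋀^Fin n]→ₗ[Ω] Ω from (Fr^[s] (show Coh Ω Y n from f)))
      (fun k => F Ω Y (v k)) = _
    rw [ih]
    rfl

variable {L : Type} [Field L] [NumberField L] [IsCMField L] [IsGalois ℚ L] (j : L →+* ℂ)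
  (jO : L →+* Ω)

/-- The monomials on `Y` with the given functions are polynomials in divisor classes. -/
def DivM (Y : RedAV p ν) (j : L →+* ℂ) (jO : L →+* Ω) (κ : Type)
    (t : κ → (L ≃ₐ[ℚ] L) → ℤ) : Prop :=
  ∀ [Fintype κ] [DecidableEq κ] (I : κ → Wt Y.X L),
    (∀ k, tf p ν j (St j (I k)) = t k) → Div Ω Y κ (monoO jO I)

theorem closedDiv (hY : Big Y.X j) : Closed (L ≃ₐ[ℚ] L) (DivM Y j jO) := by
  classical
  have hval := Pool.Agent.W366.TA.val
  have hru := Pool.Agent.W64.TA.ru
  refine ⟨?_, ?_, ?_, ?_⟩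
  · intro κ _ t _ _ I hI
    exact Div.unit _
  · intro κ κ' _ e t t' ht h _ _ I' hI'
    haveI := Fintype.ofFinite κ
    have h1 := h (fun k => I' (e k)) (by intro k; rw [hI', ht])
    have h2 := Div.reindex e _ h1
    rwa [Pool.Agent.W333.TA.monoO_reindex] at h2
  · intro κ κ' _ _ t t' h h' iF iD I hI
    haveI := Fintype.ofFinite κ
    haveI := Fintype.ofFinite κ'
    obtain rfl : iF = instFintypeSum κ κ' := Subsingleton.elim _ _
    obtain rfl : iD = instDecidableEqSum := Subsingleton.elim _ _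
    have h1 := h (fun k => I (Sum.inl k)) (fun k => hI (Sum.inl k))
    have h2 := h' (fun k => I (Sum.inr k)) (fun k => hI (Sum.inr k))
    set c : Ω := (Fintype.card (Equiv.Perm κ) : Ω) * (Fintype.card (Equiv.Perm κ') : Ω) with hc
    have hc0 : c ≠ 0 := by
      rw [hc]
      exact mul_ne_zero (Nat.cast_ne_zero.mpr Fintype.card_ne_zero)
        (Nat.cast_ne_zero.mpr Fintype.card_ne_zero)
    have hI2 : Sum.elim (fun k => I (Sum.inl k)) (fun k => I (Sum.inr k)) = I := by
      funext k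
      rcases k with k | k <;> rfl
    have h3 := Div.cup _ _ h1 h2 (c • monoO jO I) (by
      intro v
      rw [Pool.Agent.W333.TA.monoO_cup, hI2]
      rfl)
    have h4 := Div.smul c⁻¹ _ h3
    rwa [smul_smul, inv_mul_cancel₀ hc0, one_smul] at h4
  · intro f iF iD I hI
    obtain rfl : iF = Fin.fintype 2 := Subsingleton.elim _ _
    obtain rfl : iD = instDecidableEqFin 2 := Subsingleton.elim _ _
    have hI0 : tf p ν j (St j (I 0)) = f := hI 0
    have hI1 : tf p ν j (St j (I 1)) = -f := hI 1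
    set lam : Fin 2 → L := fun k => (I k).2 (Y.π (I k).1) with hlam
    have hD : 0 < Nat.card (Dec p ν j) := Nat.card_pos
    set D : ℤ := (Nat.card (Dec p ν j) : ℤ) with hDdef
    have hv : ∀ (k : Fin 2) (σ : L ≃ₐ[ℚ] L), ‖ν.symm (j (σ (lam k)))‖ ^ (2 * D) =
        ‖(p : PadicAlgCl p) ^ Y.a‖ ^ (D + tf p ν j (St j (I k)) σ) := by
      intro k σ
      have h1 := (hval p ν L j (Y.X.factor (I k).1) (hY (I k).1) Y.a (Y.π (I k).1)).mp
        (Y.frob (I k).1).shimuraTaniyama (σ • (I k).2)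
      rw [Pool.Agent.W333.TA.tf_smul] at h1
      exact h1
    have hp0 : ‖(p : PadicAlgCl p) ^ Y.a‖ ≠ 0 := by
      rw [norm_ne_zero_iff]
      exact pow_ne_zero _ (Nat.cast_ne_zero.mpr (Fact.out : p.Prime).ne_zero)
    have hprod : ∀ σ : L ≃ₐ[ℚ] L, ‖ν.symm (j (σ (lam 0 * lam 1)))‖ =
        ‖(p : PadicAlgCl p) ^ Y.a‖ := by
      intro σ
      have h0 := hv 0 σ
      have h1 := hv 1 σ
      rw [hI0] at h0
      rw [hI1] at h1
      have h2 : ‖ν.symm (j (σ (lam 0 * lam 1)))‖ ^ (2 * D) =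
          ‖(p : PadicAlgCl p) ^ Y.a‖ ^ (2 * D) := by
        rw [map_mul, map_mul, map_mul, norm_mul, mul_zpow, h0, h1, ← zpow_add₀ hp0]
        congr 1
        rw [Pi.neg_apply]
        ring
      have h3 : (2 * D) = ((2 * Nat.card (Dec p ν j) : ℕ) : ℤ) := by
        rw [hDdef]; push_cast; ring
      rw [h3, zpow_natCast, zpow_natCast] at h2
      exact (pow_left_inj₀ (norm_nonneg _) (norm_nonneg _) (by omega)).mp h2
    have hw : ∀ (k : Fin 2) (ψ : L →+* ℂ), ‖ψ (lam k)‖ ^ 2 = (p : ℝ) ^ Y.a := fun k ψ =>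
      (Y.frob (I k).1).weil (ψ.comp (I k).2)
    have hint : ∀ k : Fin 2, IsIntegral ℤ (lam k) := fun k =>
      (Y.frob (I k).1).integral.map ((I k).2.toIntAlgHom)
    obtain ⟨n, hn, hn2⟩ := hru p ν L j (lam 0 * lam 1) ((p : L) ^ Y.a) (2 * Y.a) (2 * Y.a)
      (by have := Y.pos; omega) (by have := Y.pos; omega) ((hint 0).mul (hint 1))
      ((IsIntegral.pow (by exact_mod_cast isIntegral_algebraMap (R := ℤ) (x := (p : ℤ)))) _)
      (by
        intro ψ
        rw [map_mul, norm_mul, mul_pow, hw, hw, two_mul, pow_add])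
      (by
        intro ψ
        rw [map_pow, map_natCast, norm_pow, Complex.norm_natCast, ← pow_mul, mul_comm])
      (by
        intro σ
        rw [hprod σ, map_pow, map_natCast, map_pow, map_natCast, map_pow, map_natCast])
    refine Div.divisor _ (2 * Y.a * n) (Nat.mul_pos (by have := Y.pos; omega) hn) ?_
    refine AlternatingMap.ext (M := TM Ω Y) fun v => ?_
    refine (Fr_iterate_apply (2 * Y.a * n) (monoO jO I) v).trans ?_
    rw [Pool.Agent.W333.TA.monoO_F_pow, Fin.prod_univ_two]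
    change jO (lam 0 * lam 1) ^ (2 * Y.a * n) * _ = (q Y : Ω) ^ (2 * Y.a * n) * _
    rw [← map_pow, hn2, map_pow, map_pow, map_natCast]
    unfold q
    push_cast
    rfl

theorem div_sum {κ ι : Type} (i0 : Div Ω Y κ 0) (s : Finset ι) (F : ι → (TM Ω Y) [⋀^κ]→ₗ[Ω] Ω)
    (hF : ∀ i ∈ s, Div Ω Y κ (F i)) : Div Ω Y κ (∑ i ∈ s, F i) := by
  classical
  induction s using Finset.induction_on with
  | empty => rw [Finset.sum_empty]; exact i0
  | insert a s ha ih =>
    rw [Finset.sum_insert ha]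
    exact Div.add _ _ (hF a (Finset.mem_insert_self a s))
      (ih fun i hi => hF i (Finset.mem_insert_of_mem hi))

/-- From monomials to arbitrary forms. -/
theorem div_expand (e : Basis (Wt Y.X L) Ω (TM Ω Y)) (h1 : ∀ w, co jO w (e w) = 1)
    (h0 : ∀ w w', w ≠ w' → co jO w (e w') = 0) {κ : Type} [Fintype κ] [DecidableEq κ]
    (f : (TM Ω Y) [⋀^κ]→ₗ[Ω] Ω) (hne0 : f ≠ 0)
    (hf : ∀ I : κ → Wt Y.X L, f (fun k => e (I k)) ≠ 0 → Div Ω Y κ (monoO jO I)) :
    Div Ω Y κ f := by
  classical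
  haveI : Module.Finite ℚ Y.X.H1 := Module.Finite.pi
  haveI : Finite (Wt Y.X L) := Module.Finite.finite_basis e
  letI : Fintype (Wt Y.X L) := Fintype.ofFinite _
  have hrep : ∀ w v, e.repr v w = co jO w v := by
    intro w v
    have : (e.coord w) = co jO w := by
      apply e.ext
      intro w'
      rw [Basis.coord_apply, Basis.repr_self]
      by_cases h : w = w'
      · subst h; rw [Finsupp.single_eq_same, h1]
      · rw [Finsupp.single_eq_of_ne h]; exact (h0 w w' h).symm
    rw [← this]; rfl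
  have hv : ∀ v, v = ∑ w, co jO w v • e w := by
    intro v
    conv_lhs => rw [← e.sum_repr v]
    exact Finset.sum_congr rfl fun w _ => by rw [hrep]
  have hfv : ∀ v : κ → TM Ω Y, f v =
      ∑ I : κ → Wt Y.X L, (∏ k, co jO (I k) (v k)) * f (fun k => e (I k)) := by
    intro v
    have h2 : f v = f.toMultilinearMap (fun k => ∑ w, co jO w (v k) • e w) := by
      change f v = f _
      congr 1
      funext k
      exact hv (v k)
    rw [h2, MultilinearMap.map_sum]
    refine Finset.sum_congr rfl fun I _ => ?_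
    rw [MultilinearMap.map_smul_univ]
    rfl
  have hsum : ((Fintype.card (Equiv.Perm κ) : ℕ) : Ω) • f =
      ∑ I : κ → Wt Y.X L, f (fun k => e (I k)) • monoO jO I := by
    ext v
    rw [Pool.Agent.W351.TA.sum_alt, AlternatingMap.smul_apply, smul_eq_mul]
    have h3 : ∀ σ : Equiv.Perm κ, f v = ((Equiv.Perm.sign σ : ℤ) : Ω) *
        ∑ I : κ → Wt Y.X L, (∏ k, co jO (I k) (v (σ k))) * f (fun k => e (I k)) := by
      intro σ
      rw [← hfv (fun k => v (σ k))]
      have h3 : f (fun k => v (σ k)) = Equiv.Perm.sign σ • f v := f.map_perm v σ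
      rw [h3, Units.smul_def, zsmul_eq_mul, ← mul_assoc,
        ← Int.cast_mul, ← Units.val_mul, Int.units_mul_self, Units.val_one, Int.cast_one, one_mul]
    have h4 : ((Fintype.card (Equiv.Perm κ) : ℕ) : Ω) * f v =
        ∑ σ : Equiv.Perm κ, ((Equiv.Perm.sign σ : ℤ) : Ω) *
          ∑ I : κ → Wt Y.X L, (∏ k, co jO (I k) (v (σ k))) * f (fun k => e (I k)) := by
      rw [← Finset.sum_congr rfl (fun σ _ => h3 σ), Finset.sum_const, Finset.card_univ,
        nsmul_eq_mul]
    rw [h4]
    simp only [Finset.mul_sum]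
    rw [Finset.sum_comm]
    refine Finset.sum_congr rfl fun I _ => ?_
    rw [AlternatingMap.smul_apply, smul_eq_mul, Pool.Agent.W351.TA.monoO_apply, Finset.mul_sum]
    refine Finset.sum_congr rfl fun σ _ => ?_
    ring
  have hz : Div Ω Y κ (0 : (TM Ω Y) [⋀^κ]→ₗ[Ω] Ω) := by
    obtain ⟨I, hI⟩ : ∃ I : κ → Wt Y.X L, f (fun k => e (I k)) ≠ 0 := by
      by_contra hcon
      push Not at hcon
      apply hne0
      ext v
      rw [hfv v]
      exact Finset.sum_eq_zero fun I _ => by rw [hcon I, mul_zero]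
    have h6 := Div.smul (0 : Ω) _ (hf I hI)
    rwa [zero_smul] at h6
  have h5 : Div Ω Y κ (((Fintype.card (Equiv.Perm κ) : ℕ) : Ω) • f) := by
    rw [hsum]
    refine div_sum hz _ _ fun I _ => ?_
    by_cases hI : f (fun k => e (I k)) = 0
    · rw [hI, zero_smul]
      exact hz
    · exact Div.smul _ _ (hf I hI)
  have hne : ((Fintype.card (Equiv.Perm κ) : ℕ) : Ω) ≠ 0 :=
    Nat.cast_ne_zero.2 Fintype.card_ne_zero
  have h6 := Div.smul (((Fintype.card (Equiv.Perm κ) : ℕ) : Ω))⁻¹ _ h5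
  rwa [smul_smul, inv_mul_cancel₀ hne, one_smul] at h6

end mono

section main

variable {p : ℕ} [Fact p.Prime] {ν : PadicAlgCl p ≃+* ℂ} {Ω : Type} [Field Ω] [IsAlgClosed Ω]
  [CharZero Ω] {Y : RedAV p ν}

/-- Balanced families, if all relations are generated by relations between two eigenvalues. -/
theorem dcnt_of_pairs {L : Type} [Field L] [NumberField L] [IsCMField L] [IsGalois ℚ L]
    {j : L →+* ℂ} (hY : Big Y.X j) (hrel : HasPairRelations Y) {κ : Type} [Fintype κ]
    (I : κ → Wt Y.X L) (hbal : ∀ σ, ∑ k, tf p ν j (St j (I k)) σ = 0) (f : (L ≃ₐ[ℚ] L) → ℤ) :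
    dcnt (fun k => tf p ν j (St j (I k))) f = 0 := by
  classical
  have hfin := Pool.Agent.W67.TA.finite_wt j hY
  let _ : Fintype (Wt Y.X L) := Fintype.ofFinite _
  have hbij := toEmb_bijective (j := j) hY
  let E : Wt Y.X L ≃ Emb Y := Equiv.ofBijective _ hbij
  have key : ∀ d : Emb Y → ℤ, d ∈ AddSubgroup.closure
      {d : Emb Y → ℤ | ∃ n : Emb Y → ℕ, IsRel Y n ∧ (∑ w, n w ≤ 2) ∧ ∀ w, d w = n w} →
      DD (tw p ν j Y.X) (fun l => d (toEmb j Y l)) = 0 := by
    intro d hd
    induction hd using AddSubgroup.closure_induction with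
    | mem d hd =>
      obtain ⟨n, h0, h2, h3⟩ := hd
      have h1 := (isRel_iff hY n).1 h0
      have h4 : (fun l => d (toEmb j Y l)) = fun l : Wt Y.X L => (n (toEmb j Y l) : ℤ) :=
        funext fun l => h3 _
      rw [h4]
      exact DD_small (tw p ν j Y.X) (fun l => n (toEmb j Y l)) (by
          rw [← Equiv.sum_comp E] at h2
          exact h2) h1
    | zero =>
      have h4 : (fun l : Wt Y.X L => (0 : Emb Y → ℤ) (toEmb j Y l)) = 0 := rfl
      rw [h4, DD_zero]
    | add d d' _ _ h h' =>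
      have h4 : (fun l : Wt Y.X L => (d + d') (toEmb j Y l)) =
        (fun l => d (toEmb j Y l)) + fun l => d' (toEmb j Y l) := rfl
      rw [h4, DD_add, h, h', add_zero]
    | neg d _ h =>
      have h4 : (fun l : Wt Y.X L => (-d) (toEmb j Y l)) = -fun l => d (toEmb j Y l) := rfl
      rw [h4, DD_neg, h, neg_zero]
  have htw : (fun k => tf p ν j (St j (I k))) =
      fun k => ext0 (tw p ν j Y.X) ((fun k => some (I k)) k) :=
    funext fun k => tf_St j Y.X (I k)
  let e : Emb Y → ℕ := fun u => Nat.card {k // (fun k => some (I k)) k = some (E.symm u)}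
  have he : ∀ v : Wt Y.X L, (e (toEmb j Y v) : ℤ) = cnt (fun k => some (I k)) v := by
    intro v
    have h1 : E.symm (toEmb j Y v) = v := E.symm_apply_apply v
    change ((Nat.card {k // (fun k => some (I k)) k = some (E.symm (toEmb j Y v))} : ℕ) : ℤ) = _
    rw [h1]
    rfl
  have h1 : IsRel Y e := by
    rw [isRel_iff hY]
    intro σ
    rw [← hbal σ]
    have h5 : ∑ k, tf p ν j (St j (I k)) σ =
        ∑ k, ext0 (tw p ν j Y.X) ((fun k => some (I k)) k) σ :=
      Finset.sum_congr rfl fun k _ => congrFun (congrFun htw k) σ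
    rw [h5, sum_eq_cnt]
    exact Finset.sum_congr rfl fun v _ => by rw [he]
  have h2 := key _ (hrel e h1)
  have h3 : (fun l : Wt Y.X L => ((e (toEmb j Y l) : ℕ) : ℤ)) = cnt (fun k => some (I k)) :=
    funext he
  rw [htw, dcnt_eq_DD, ← h3]
  exact congrFun h2 f

/-- The Tate classes are polynomials in divisor classes. -/
theorem div_of_pairs (hrel : HasPairRelations Y) (m : ℕ)
    (f : Coh Ω Y (2 * m)) (hf : IsTateClass Ω Y 1 m f) (hf0 : f ≠ 0) :
    Div Ω Y (Fin (2 * m)) f := by
  classical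
  have hne : Nonempty (Y.X.prod (single (kp p))).I := ⟨Sum.inr ()⟩
  obtain ⟨L, _, _, _, _, j, hj⟩ := exists_cm (Y.X.prod (single (kp p)))
  have hYj : Big Y.X j := fun i ψ => hj (Sum.inl i) ψ
  let jO : L →+* Ω := ((IsAlgClosed.lift : L →ₐ[ℚ] Ω) : L →+* Ω)
  obtain ⟨e, h1, h2⟩ := Pool.Agent.W67.TA.basis p ν Ω L j jO Y hYj
  refine div_expand jO e h1 h2 f hf0 fun I hI => ?_
  have hbal := balanced jO Pool.Agent.W366.TA.val hYj e h1 h2 1 m one_pos f hf I hI
  exact closed_match (closedDiv (p := p) (ν := ν) (Y := Y) j jO hYj) m (Fin (2 * m))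
    (fun k => tf p ν j (St j (I k))) (Fintype.card_fin _)
    (dcnt_of_pairs hYj hrel I hbal) I fun k => rfl

end main

end

end Pool.Agent.Run7.h312.TS
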