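import Pool.Agent.Run7.h312.TS.Final
import Pool.Agent.TH170.GS.TB

/-!
# Abelian varieties with elementary relations between the Frobenius eigenvalues
-/

set_option autoImplicit false

namespace Pool.Agent.Run7.h312.TS

open Pool.Agent.W495.TA Pool.Agent.W495.FM Pool.Agent.TH117 Pool.Agent.TH117.GN

/-- The groups of motivic and of `ℓ`-adic homology of `X` are those of an abelian variety `Y` which is,
over an algebraic closure, isogenous to a product of powers of the factors of an abelian variety
`Z` with elementary relations (`HasElementaryRelations`) and of a supersingular abelian variety. -/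
def IsElementaryAbelian {Ω V : Type} [Field Ω] [CharZero Ω] (p : ℕ) [Fact p.Prime]
    (ν : PadicAlgCl p ≃+* ℂ) (T : Homology Ω V) (X : V) : Prop :=
  ∃ (Y : RedAV p ν) (C : Cycles Ω Y) (D : Motivic C) (g : ℕ),
    (∃ Z : RedAV p ν, BL.HasElementaryRelations Z ∧ BL.IsPowersTimesSupersingular Z Y) ∧
      IsChow C ∧ IsMotivic D ∧ IsAbelian T X D g

theorem existsFor_elementary (p : ℕ) [Fact p.Prime] (ν : PadicAlgCl p ≃+* ℂ) :
    ExistsFor fun _ _ _ _ T X => IsElementaryAbelian p ν T X := by
  apply existsFor_of
  intro Ω _ _ _ V T hT X hX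
  obtain ⟨Y, C, D, g, ⟨Z, h2, h3⟩, hC, hD, hX⟩ := hX
  exact tb_abelian hT hC (tateHolds_elem h2 h3 hC) hD hX

end Pool.Agent.Run7.h312.TS
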