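import Pool.Agent.Run7.h312.TS.Good
import Pool.Agent.Y116.MT.Trace

/-!
# Faithfulness of the realisation
-/

set_option autoImplicit false
set_option linter.unusedSectionVars false
set_option linter.unusedSimpArgs false
set_option backward.isDefEq.respectTransparency false
set_option backward.defeqAttrib.useBackward true

open CategoryTheory Limits MonoidalCategory Pretriangulated Triangulated

namespace Pool.Agent.Run7.h312.TS

open Pool.Agent.Y116.MT Run7.h822.MT Pool.Agent.W495.FM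

noncomputable section

open Functor.LaxMonoidal

universe v u w

section

variable {C : Type u} [Category.{v} C] [Preadditive C] [HasZeroObject C] [HasShift C ℤ]
  [∀ n : ℤ, (shiftFunctor C n).Additive] [Pretriangulated C] [MonoidalCategory C]
  [SymmetricCategory C] [TensorTriangulated C]

lemma lShift_natural_left {X X' : C} (f : X ⟶ X') (Y : C) (n : ℤ) :
    f⟦n⟧' ▷ Y ≫ (lShift X' Y n).hom = (lShift X Y n).hom ≫ (f ▷ Y)⟦n⟧' := by
  simp only [lShift, Iso.trans_hom, Functor.mapIso_hom, Category.assoc]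
  rw [BraidedCategory.braiding_naturality_left_assoc, ← Category.assoc (Y ◁ _),
    rShift_natural_right, Category.assoc, ← Functor.map_comp, ← Functor.map_comp,
    BraidedCategory.braiding_naturality_right]

lemma shiftTensorIso_natural {X X' : C} (f : X ⟶ X') (Y : C) (i : ℤ) :
    f⟦i⟧' ▷ (Y⟦-i⟧) ≫ (shiftTensorIso X' Y i).hom = (shiftTensorIso X Y i).hom ≫ f ▷ Y := by
  simp only [shiftTensorIso, Iso.trans_hom, Functor.mapIso_hom, Category.assoc]
  rw [← Category.assoc (f⟦i⟧' ▷ (Y⟦-i⟧)), rShift_natural_left, Category.assoc]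
  congr 1
  rw [← Functor.map_comp_assoc, lShift_natural_left, Functor.map_comp, Category.assoc]
  congr 1
  exact (shiftFunctorCompIsoId C i (-i) (add_neg_cancel i)).hom.naturality (f ▷ Y)

variable {E : Type w} [Field E] (R : Realisation C E)

/-- If `H` vanishes on all shifts of `f` then it vanishes on `f ▷ Y`. -/
lemma H_whisker_zero {X X' : C} (f : X ⟶ X') (hf : ∀ i : ℤ, R.H.map (f⟦i⟧') = 0) (Y : C) :
    R.H.map (f ▷ Y) = 0 := by
  have h1 : (R.H.map (f ▷ Y)).hom ∘ₗ kunnethMap R.H X Y = 0 := by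
    apply DirectSum.linearMap_ext
    intro i
    ext x
    have h2 : (μ R.H (X⟦i⟧) (Y⟦-i⟧) ≫ R.H.map (shiftTensorIso X Y i).hom) ≫ R.H.map (f ▷ Y) = 0 := by
      rw [Category.assoc, ← Functor.map_comp, ← shiftTensorIso_natural, Functor.map_comp,
        ← μ_natural_left_assoc, hf i]
      have h3 : (0 : R.H.obj (X⟦i⟧) ⟶ R.H.obj (X'⟦i⟧)) ▷ R.H.obj (Y⟦-i⟧) = 0 :=
        (tensorRight _).map_zero _ _
      rw [h3, zero_comp]
    have h3 : kunnethMap R.H X Y (DirectSum.lof E ℤ _ i x) =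
        (μ R.H (X⟦i⟧) (Y⟦-i⟧) ≫ R.H.map (shiftTensorIso X Y i).hom).hom x :=
      DirectSum.toModule_lof (M := fun i : ℤ =>
        (R.H.obj (X⟦i⟧) ⊗ R.H.obj (Y⟦-i⟧) : ModuleCat.{w} E)) E i x
    change (R.H.map (f ▷ Y)).hom (kunnethMap R.H X Y (DirectSum.lof E ℤ _ i x)) = 0
    rw [h3]
    exact LinearMap.congr_fun (congrArg ModuleCat.Hom.hom h2) x
  ext y
  obtain ⟨x, rfl⟩ := (R.kunneth X Y).2 y
  exact LinearMap.congr_fun h1 x

variable {R}

lemma isIso_mu_right {Y : C} (h : R.Deg Y 0) (X : C) : IsIso (μ R.H X Y) := by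
  have h1 := h.isIso_mu X
  have h2 : (β_ (R.H.obj X) (R.H.obj Y)).hom ≫ μ R.H Y X = μ R.H X Y ≫ R.H.map (β_ X Y).hom :=
    (Functor.LaxBraided.braided X Y).symm
  have h3 : IsIso (μ R.H X Y ≫ R.H.map (β_ X Y).hom) := by
    rw [← h2]
    infer_instance
  exact IsIso.of_isIso_comp_right _ (R.H.map (β_ X Y).hom)

lemma H_shift_whisker {X : C} (e : X ⟶ X) (Y : C) (i : ℤ) :
    R.H.map ((e ▷ Y)⟦i⟧') = R.H.map (lShift X Y i).inv ≫ R.H.map (e⟦i⟧' ▷ Y) ≫
      R.H.map (lShift X Y i).hom := by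
  rw [← Functor.map_comp, ← Functor.map_comp, lShift_natural_left, Iso.inv_hom_id_assoc]

/-- Künneth components of twists. -/
lemma HasKunneth.twist {Λ : Type*} {E : Λ → Type w} [∀ l, Field (E l)]
    {R : ∀ l, Realisation C (E l)} {X : C} (h : HasKunneth R X) {Y : C}
    (hY : ∀ l, (R l).Deg Y 0) : HasKunneth R (X ⊗ Y) := by
  intro j
  obtain ⟨e, he⟩ := h j
  refine ⟨e ▷ Y, fun l => ⟨?_, fun i hi => ?_⟩⟩
  · have h1 : (R l).H.map (e⟦j⟧' ▷ Y) = 𝟙 _ := by
      have h2 := isIso_mu_right (hY l) (X⟦j⟧)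
      rw [← cancel_epi (μ (R l).H (X⟦j⟧) Y), ← μ_natural_left, (he l).1, id_whiskerRight,
        Category.id_comp, Category.comp_id]
    rw [H_shift_whisker, h1, Category.id_comp, ← Functor.map_comp, Iso.inv_hom_id,
      CategoryTheory.Functor.map_id]
  · have h1 : (R l).H.map (e⟦i⟧' ▷ Y) = 0 := by
      have h2 := isIso_mu_right (hY l) (X⟦i⟧)
      have h3 : (0 : (R l).H.obj (X⟦i⟧) ⟶ (R l).H.obj (X⟦i⟧)) ▷ (R l).H.obj Y = 0 :=
        (tensorRight _).map_zero _ _
      rw [← cancel_epi (μ (R l).H (X⟦i⟧) Y), ← μ_natural_left, (he l).2 i hi, h3, zero_comp,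
        comp_zero]
    rw [H_shift_whisker, h1, zero_comp, comp_zero]

end

section

variable {C : Type} [Category.{0} C] [Preadditive C] [HasZeroObject C] [HasShift C ℤ]
  [∀ n : ℤ, (shiftFunctor C n).Additive] [Pretriangulated C] [MonoidalCategory C]
  [SymmetricCategory C] [TensorTriangulated C] [Linear ℚ C] [MonoidalPreadditive C]
  [RightRigidCategory C]
  {Ω : Type} [Field Ω] [CharZero Ω] {R : Realisation C Ω} {φ : R.H ⟶ R.H} {hφ : IsFrobenius R φ}

lemma rg_ne_zero {W : C} (hW : (nd R hφ W).Good) {z : 𝟙_ C ⟶ W} (hz : z ≠ 0) : rg R z ≠ 0 := by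
  have h1 := ((nd R hφ W).good_iff.1 hW).2.1 1 (fun _ => z) (by
    rw [linearIndependent_unique_iff]
    exact hz)
  rw [linearIndependent_unique_iff] at h1
  exact h1

variable (hg : ∀ W : C, (nd R hφ W).Good)

include hg

theorem faithful {X Y : C} (f : X ⟶ Y) (hf : ∀ i : ℤ, R.H.map (f⟦i⟧') = 0) : f = 0 := by
  apply eq_zero_of_nm
  by_contra h
  refine rg_ne_zero (hg _) h ?_
  rw [nm, rg_comp, H_whisker_zero R f hf]
  rfl

theorem faithful_sub {X Y : C} {f g : X ⟶ Y} (hf : ∀ i : ℤ, R.H.map (f⟦i⟧') = R.H.map (g⟦i⟧')) :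
    f = g := by
  rw [← sub_eq_zero]
  apply faithful hg
  intro i
  rw [Functor.map_sub, Functor.map_sub, hf i, sub_self]

end

end

end Pool.Agent.Run7.h312.TS
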