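import Pool.Agent.Run7.h312.TS.Defs
import Pool.Agent.W495.FM.HomFive
import Pool.Agent.Y116.MT.Tri
import Pool.Agent.Run7.h822.MT.Piece

/-!
# The regulator is good for all objects of a category generated by good ones
-/

set_option autoImplicit false
set_option linter.unusedSectionVars false
set_option linter.unusedSimpArgs false
set_option backward.isDefEq.respectTransparency false
set_option backward.defeqAttrib.useBackward true

open CategoryTheory Limits MonoidalCategory Pretriangulated Triangulated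

namespace Pool.Agent.Run7.h312.TS

open Pool.Agent.Y116.MT Run7.h822.MT Pool.Agent.W495.FM

noncomputable section

open Functor.LaxMonoidal

variable {C : Type} [Category.{0} C] [Preadditive C] [HasZeroObject C] [HasShift C ℤ]
  [∀ n : ℤ, (shiftFunctor C n).Additive] [Pretriangulated C] [MonoidalCategory C]
  [SymmetricCategory C] [TensorTriangulated C] [Linear ℚ C]
  {Ω : Type} [Field Ω] [CharZero Ω] (R : Realisation C Ω) {φ : R.H ⟶ R.H} (hφ : IsFrobenius R φ)

lemma rg_add {W : C} (z w : 𝟙_ C ⟶ W) : rg R (z + w) = rg R z + rg R w := by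
  rw [rg, Functor.map_add, ModuleCat.hom_add, LinearMap.add_apply]
  rfl

lemma rg_comp {W W' : C} (z : 𝟙_ C ⟶ W) (f : W ⟶ W') : rg R (z ≫ f) = (R.H.map f).hom (rg R z) := by
  rw [rg, Functor.map_comp, ModuleCat.hom_comp, LinearMap.comp_apply]
  rfl

include hφ in
lemma frob_rg {W : C} (z : 𝟙_ C ⟶ W) : (φ.app W).hom (rg R z) = rg R z := by
  have h1 := LinearMap.congr_fun (congrArg ModuleCat.Hom.hom (φ.naturality z))
    ((ε R.H).hom (1 : Ω))
  have h2 := LinearMap.congr_fun (congrArg ModuleCat.Hom.hom hφ.unit) (1 : Ω)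
  have h3 : (φ.app (𝟙_ C)).hom ((ε R.H).hom (1 : Ω)) = (ε R.H).hom (1 : Ω) := h2
  refine h1.trans ?_
  change (R.H.map z).hom ((φ.app (𝟙_ C)).hom ((ε R.H).hom (1 : Ω))) = _
  rw [h3]
  rfl

/-- The node of an object. -/
def nd (W : C) : Node Ω where
  M := 𝟙_ C ⟶ W
  E := R.H.obj W
  fin := R.finite W
  φ := (φ.app W).hom
  ρ := AddMonoidHom.mk' (rg R) (rg_add R)
  inv := frob_rg R hφ

/-- The arrow of a morphism. -/
def ar {W W' : C} (f : W ⟶ W') : Arrow (nd R hφ W) (nd R hφ W') where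
  f := AddMonoidHom.mk' (fun z => z ≫ f) fun z w => Preadditive.add_comp _ _ _ z w f
  g := (R.H.map f).hom
  comm z := rg_comp R z f
  frob x := LinearMap.congr_fun (congrArg ModuleCat.Hom.hom (φ.naturality f)) x

lemma good_of_retract {W W' : C} (i : W ⟶ W') (r : W' ⟶ W) (h : i ≫ r = 𝟙 W)
    (hW : (nd R hφ W').Good) : (nd R hφ W).Good := by
  refine good_retract (ar R hφ i) (ar R hφ r) (fun x => ?_) (fun x => ?_) hW
  · change (x ≫ i) ≫ r = x
    rw [Category.assoc, h, Category.comp_id]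
  · change (R.H.map r).hom ((R.H.map i).hom x) = x
    have h1 : R.H.map i ≫ R.H.map r = 𝟙 _ := by
      rw [← Functor.map_comp, h, CategoryTheory.Functor.map_id]
    exact LinearMap.congr_fun (congrArg ModuleCat.Hom.hom h1) x

lemma good_of_iso {W W' : C} (e : W ≅ W') (hW : (nd R hφ W').Good) : (nd R hφ W).Good :=
  good_of_retract R hφ e.hom e.inv e.hom_inv_id hW

lemma good_of_zero {W : C} (h : IsZero W) : (nd R hφ W).Good := by
  have h1 : ∀ z : 𝟙_ C ⟶ W, z = 0 := fun z => h.eq_of_tgt _ _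
  have h2 : Subsingleton (R.H.obj W) := ModuleCat.subsingleton_of_isZero (R.H.map_isZero h)
  constructor
  · rw [injective_iff_map_eq_zero]
    intro t _
    induction t using TensorProduct.induction_on with
    | zero => rfl
    | tmul c x =>
      have h3 : x = 0 := h1 x
      rw [h3, TensorProduct.tmul_zero]
    | add x y hx hy =>
      rw [hx (h2.elim _ _), hy (h2.elim _ _), add_zero]
  · intro e _
    exact ⟨0, h2.elim _ _⟩

section Tri

variable {X Y Z : C} {f : X ⟶ Y} {g : Y ⟶ Z} {h : Z ⟶ X⟦(1 : ℤ)⟧}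
  (hT : Triangle.mk f g h ∈ distTriang C)

include hT

/-- Exactness of the groups of morphisms. -/
lemma hom_exact (n : ℤ) (W : C) (z : W ⟶ Y⟦n⟧) (hz : z ≫ g⟦n⟧' = 0) :
    ∃ x : W ⟶ X⟦n⟧, x ≫ f⟦n⟧' = z := by
  obtain ⟨x, hx⟩ := Triangle.coyoneda_exact₂ _ (Triangle.shift_distinguished _ hT n) z (by
    change z ≫ (n.negOnePow • g⟦n⟧') = 0
    rw [Units.smul_def, Preadditive.comp_zsmul, hz, smul_zero])
  refine ⟨(n.negOnePow : ℤ) • x, ?_⟩
  have hx' : z = x ≫ (n.negOnePow • f⟦n⟧') := hx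
  rw [hx', Preadditive.zsmul_comp, Units.smul_def, Preadditive.comp_zsmul]

lemma H_exact (n : ℤ) (y : R.H.obj (Y⟦n⟧)) (hy : (R.H.map (g⟦n⟧')).hom y = 0) :
    ∃ x, (R.H.map (f⟦n⟧')).hom x = y := hexact R hT n y hy

lemma exact_f (n : ℤ) : Function.Exact (ar R hφ (f⟦n⟧')).f (ar R hφ (g⟦n⟧')).f := by
  intro z
  constructor
  · intro hz
    exact hom_exact hT n _ z hz
  · rintro ⟨x, rfl⟩
    change (x ≫ f⟦n⟧') ≫ g⟦n⟧' = 0
    rw [Category.assoc, ← Functor.map_comp, comp12 hT, Functor.map_zero, comp_zero]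

lemma exact_g (n : ℤ) : Function.Exact (ar R hφ (f⟦n⟧')).g (ar R hφ (g⟦n⟧')).g := by
  intro z
  constructor
  · intro hz
    exact H_exact R hT n z hz
  · rintro ⟨x, rfl⟩
    change (R.H.map (g⟦n⟧')).hom ((R.H.map (f⟦n⟧')).hom x) = 0
    have h1 : R.H.map (f⟦n⟧') ≫ R.H.map (g⟦n⟧') = 0 := by
      rw [← Functor.map_comp, ← Functor.map_comp, comp12 hT, Functor.map_zero, Functor.map_zero]
    exact LinearMap.congr_fun (congrArg ModuleCat.Hom.hom h1) x

end Tri

/-- The class of the objects all of whose shifts are good. -/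
def AllGood : ObjectProperty C := fun X => ∀ n : ℤ, (nd R hφ (X⟦n⟧)).Good

theorem allGood_thick : IsThick (AllGood R hφ) where
  zero X hX n := good_of_zero R hφ ((shiftFunctor C n).map_isZero hX)
  shift X n hX m := good_of_iso R hφ ((shiftFunctorAdd C n m).app X).symm (hX (n + m))
  retract {X Y} i r h hX n := good_of_retract R hφ (i⟦n⟧') (r⟦n⟧') (by
    rw [← Functor.map_comp, h, CategoryTheory.Functor.map_id]) (hX n)
  ext {X Y Z} f g h hT hX hZ n := by
    have h1 : AllGood R hφ (Z⟦(-1 : ℤ)⟧) := fun m =>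
      good_of_iso R hφ ((shiftFunctorAdd C (-1) m).app Z).symm (hZ (-1 + m))
    have h2 : AllGood R hφ (X⟦(1 : ℤ)⟧) := fun m =>
      good_of_iso R hφ ((shiftFunctorAdd C 1 m).app X).symm (hX (1 + m))
    have hT1 := inv_rot_of_distTriang _ hT
    have hT2 := rot_of_distTriang _ hT
    exact five (ar R hφ ((Triangle.mk f g h).invRotate.mor₁⟦n⟧')) (ar R hφ (f⟦n⟧'))
      (ar R hφ (g⟦n⟧')) (ar R hφ (h⟦n⟧'))
      (exact_f R hφ hT1 n) (exact_f R hφ hT n) (exact_f R hφ hT2 n)
      (exact_g R hφ hT1 n) (exact_g R hφ hT n) (exact_g R hφ hT2 n) (h1 n) (hX n) (hZ n) (h2 n)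

/-- The conjecture of Tate and Beilinson in terms of nodes. -/
theorem good_of_tb {tw : ℤ → C} {X : C} (h : TB (homology R φ tw) X) (i j : ℤ) :
    (nd R hφ ((X ⊗ tw (-j))⟦-i⟧)).Good := by
  rw [Node.good_iff]
  exact h i j

theorem allGood_of_tb {tw : ℤ → C} {X : C} (h : TB (homology R φ tw) X) (n : ℤ) :
    AllGood R hφ (X ⊗ tw n) := by
  intro m
  have h1 := good_of_tb R hφ h (-m) (-n)
  rwa [neg_neg, neg_neg] at h1

end

end Pool.Agent.Run7.h312.TS
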