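import Pool.Agent.Run7.h312.TS.Reg2

/-!
# Künneth components and regularity
-/

set_option autoImplicit false
set_option linter.unusedSectionVars false
set_option linter.unusedSimpArgs false
set_option backward.isDefEq.respectTransparency false
set_option backward.defeqAttrib.useBackward true

open CategoryTheory Limits MonoidalCategory Pretriangulated Triangulated TensorProduct

namespace Pool.Agent.Run7.h312.TS

open Pool.Agent.Y116.MT Run7.h822.MT Pool.Agent.W495.FM

noncomputable section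

open Functor.LaxMonoidal

section

variable {C : Type} [Category.{0} C] [Preadditive C] [HasZeroObject C] [HasShift C ℤ]
  [∀ n : ℤ, (shiftFunctor C n).Additive] [Pretriangulated C] [MonoidalCategory C]
  [SymmetricCategory C] [TensorTriangulated C] [Linear ℚ C] [MonoidalPreadditive C]
  [RightRigidCategory C]
  {Λ : Type} {E : Λ → Type} [∀ l, Field (E l)] {R : ∀ l, Realisation C (E l)}

lemma map_shift_comp {l : Λ} {X Y Z : C} (f : X ⟶ Y) (g : Y ⟶ Z) (i : ℤ) :
    (R l).H.map ((f ≫ g)⟦i⟧') = (R l).H.map (f⟦i⟧') ≫ (R l).H.map (g⟦i⟧') := by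
  rw [Functor.map_comp, Functor.map_comp]

lemma kunneth_zero {X : C} (hX : IsZero X) : HasKunneth R X := by
  intro j
  refine ⟨𝟙 X, fun l => ⟨?_, fun i _ => ?_⟩⟩
  · rw [CategoryTheory.Functor.map_id, CategoryTheory.Functor.map_id]
  · exact ((R l).H.map_isZero ((shiftFunctor C i).map_isZero hX)).eq_of_src _ _

lemma kunneth_shift {X : C} (n : ℤ) (h : HasKunneth R X) : HasKunneth R (X⟦n⟧) := by
  intro j
  obtain ⟨e, he⟩ := h (n + j)
  have key : ∀ (l : Λ) (i : ℤ), (R l).H.map (e⟦n⟧'⟦i⟧') =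
      (R l).H.map ((shiftFunctorAdd C n i).inv.app X) ≫ (R l).H.map (e⟦n + i⟧') ≫
      (R l).H.map ((shiftFunctorAdd C n i).hom.app X) := by
    intro l i
    rw [← Functor.map_comp, ← Functor.map_comp]
    congr 1
    have h1 := (shiftFunctorAdd C n i).hom.naturality e
    rw [h1]
    simp
  refine ⟨e⟦n⟧', fun l => ⟨?_, fun i hi => ?_⟩⟩
  · rw [key, (he l).1, Category.id_comp, ← Functor.map_comp, Iso.inv_hom_id_app,
      CategoryTheory.Functor.map_id]
    rfl
  · rw [key, (he l).2 (n + i) (by omega), zero_comp, comp_zero]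

lemma kunneth_retract {X Y : C} (i : Y ⟶ X) (r : X ⟶ Y) (hir : i ≫ r = 𝟙 Y)
    (h : HasKunneth R X) : HasKunneth R Y := by
  intro j
  obtain ⟨e, he⟩ := h j
  refine ⟨i ≫ e ≫ r, fun l => ⟨?_, fun n hn => ?_⟩⟩
  · rw [map_shift_comp, map_shift_comp, (he l).1, Category.id_comp, ← map_shift_comp, hir,
      CategoryTheory.Functor.map_id, CategoryTheory.Functor.map_id]
  · rw [map_shift_comp, map_shift_comp, (he l).2 n hn, zero_comp, comp_zero]

variable {l₀ : Λ} [CharZero (E l₀)] {φ : (R l₀).H ⟶ (R l₀).H} {hφ : IsFrobenius (R l₀) φ}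
  (hg : ∀ W : C, (nd (R l₀) hφ W).Good)

include hg

/-- The Künneth components split off. -/
lemma piece [IsIdempotentComplete C] {X : C} (h : HasKunneth R X) (j : ℤ) :
    ∃ (P : C) (i : P ⟶ X) (r : X ⟶ P), i ≫ r = 𝟙 P ∧ (R l₀).Deg P j ∧
      (R l₀).H.map ((r ≫ i)⟦j⟧') = 𝟙 _ := by
  obtain ⟨e, he⟩ := h j
  have hid : e ≫ e = e := by
    apply faithful_sub hg
    intro n
    rw [map_shift_comp]
    by_cases hn : n = j
    · subst hn
      rw [(he l₀).1, Category.id_comp]
    · rw [(he l₀).2 n hn, zero_comp]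
  obtain ⟨P, i, r, hir, hri⟩ := IsIdempotentComplete.idempotents_split X e hid
  refine ⟨P, i, r, hir, fun n hn => ?_, ?_⟩
  · have h1 : 𝟙 P = i ≫ e ≫ r := by
      rw [← hri, Category.assoc, hir, Category.comp_id, hir]
    rw [IsZero.iff_id_eq_zero, ← CategoryTheory.Functor.map_id, ← CategoryTheory.Functor.map_id,
      h1, map_shift_comp, map_shift_comp, (he l₀).2 n hn, zero_comp, comp_zero]
  · rw [hri, (he l₀).1]

/-- The morphisms between objects with Künneth components are regular. -/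
theorem regular [IsIdempotentComplete C] {X Y : C} (hX : HasKunneth R X) (hY : HasKunneth R Y)
    (f : X ⟶ Y) : ∃ g : Y ⟶ X, f ≫ g ≫ f = f := by
  choose P i r hir hP hp using piece hg hX
  choose P' i' r' hir' hP' hp' using piece hg hY
  choose g hgg using fun j => regular_deg hg (hP j) (hP' j) (i j ≫ f ≫ r' j)
  obtain ⟨N, hN⟩ := (R l₀).bounded X
  let G : Y ⟶ X := ∑ j ∈ Finset.Icc (-(N : ℤ)) N, r' j ≫ g j ≫ i j
  refine ⟨G, faithful_sub hg fun n => ?_⟩
  by_cases hn : N < n.natAbs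
  · exact (hN n hn).eq_of_src _ _
  · have hmem : n ∈ Finset.Icc (-(N : ℤ)) N := by
      rw [Finset.mem_Icc]
      omega
    have hG : (R l₀).H.map (G⟦n⟧') = (R l₀).H.map ((r' n ≫ g n ≫ i n)⟦n⟧') := by
      change (R l₀).H.map ((∑ j ∈ Finset.Icc (-(N : ℤ)) N, r' j ≫ g j ≫ i j)⟦n⟧') = _
      rw [Functor.map_sum, Functor.map_sum]
      refine Finset.sum_eq_single n (fun j _ hj => ?_) (fun h => absurd hmem h)
      rw [map_shift_comp, map_shift_comp, (hP' j n (Ne.symm hj)).eq_of_tgt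
        ((R l₀).H.map ((r' j)⟦n⟧')) 0, zero_comp]
    have hf : (R l₀).H.map (f⟦n⟧') = (R l₀).H.map ((r n ≫ (i n ≫ f ≫ r' n) ≫ i' n)⟦n⟧') := by
      have h1 : r n ≫ (i n ≫ f ≫ r' n) ≫ i' n = (r n ≫ i n) ≫ f ≫ (r' n ≫ i' n) := by
        simp only [Category.assoc]
      rw [h1, map_shift_comp (r n ≫ i n), map_shift_comp f, hp, hp', Category.id_comp,
        Category.comp_id]
    have h2 : (r n ≫ (i n ≫ f ≫ r' n) ≫ i' n) ≫ (r' n ≫ g n ≫ i n) ≫
        (r n ≫ (i n ≫ f ≫ r' n) ≫ i' n) =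
        r n ≫ ((i n ≫ f ≫ r' n) ≫ g n ≫ (i n ≫ f ≫ r' n)) ≫ i' n := by
      simp only [Category.assoc]
      rw [reassoc_of% (hir' n), reassoc_of% (hir n)]
    rw [map_shift_comp, map_shift_comp, hG, hf, ← map_shift_comp, ← map_shift_comp, h2, hgg]

/-- Extensions. -/
theorem kunneth_ext [IsIdempotentComplete C] {X Y Z : C} {f : X ⟶ Y} {g : Y ⟶ Z}
    {h : Z ⟶ X⟦(1 : ℤ)⟧} (hT : Triangle.mk f g h ∈ distTriang C) (hX : HasKunneth R X)
    (hZ : HasKunneth R Z) : HasKunneth R Y := by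
  obtain ⟨s, hs⟩ := regular hg hZ (kunneth_shift 1 hX) h
  -- `f` is regular
  obtain ⟨l, hl⟩ := ye1 hT (𝟙 _ - s ≫ h) (by
    rw [Preadditive.comp_sub, Category.comp_id, hs, sub_self])
  obtain ⟨f', rfl⟩ := (shiftFunctor C (1 : ℤ)).map_surjective l
  have hf : f ≫ f' ≫ f = f := by
    apply (shiftFunctor C (1 : ℤ)).map_injective
    rw [Functor.map_comp, Functor.map_comp, ← Category.assoc, ← hl, Preadditive.sub_comp,
      Category.id_comp, Category.assoc, comp31 hT, comp_zero, sub_zero]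
  obtain ⟨n, hn⟩ := ye2 hT (𝟙 Y - f' ≫ f) (by
    rw [Preadditive.comp_sub, Category.comp_id, hf, sub_self])
  have hsum : 𝟙 Y = f' ≫ f + g ≫ n := by
    rw [← hn]
    abel
  intro j
  obtain ⟨a, ha⟩ := hX j
  obtain ⟨c, hc⟩ := hZ j
  refine ⟨f' ≫ a ≫ f + g ≫ c ≫ n, fun l => ⟨?_, fun i hi => ?_⟩⟩
  · rw [Functor.map_add, Functor.map_add, map_shift_comp, map_shift_comp, map_shift_comp,
      map_shift_comp, (ha l).1, (hc l).1, Category.id_comp, Category.id_comp, ← map_shift_comp,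
      ← map_shift_comp, ← Functor.map_add, ← Functor.map_add, ← hsum,
      CategoryTheory.Functor.map_id, CategoryTheory.Functor.map_id]
  · rw [Functor.map_add, Functor.map_add, map_shift_comp, map_shift_comp, map_shift_comp,
      map_shift_comp, (ha l).2 i hi, (hc l).2 i hi, zero_comp, zero_comp, comp_zero, comp_zero,
      add_zero]

theorem kunneth_thick [IsIdempotentComplete C] : IsThick (fun X : C => HasKunneth R X) where
  zero _ hX := kunneth_zero hX
  shift _ n hX := kunneth_shift n hX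
  retract i r h hX := kunneth_retract i r h hX
  ext _ _ _ hT hX hZ := kunneth_ext hg hT hX hZ

end

end

end Pool.Agent.Run7.h312.TS
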