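import Pool.Agent.Run7.h312.TS.Kun
import Pool.Agent.Run7.h822.MT.Exist

/-!
# Existence of motivic t-structures
-/

set_option autoImplicit false
set_option linter.unusedSectionVars false
set_option linter.unusedSimpArgs false
set_option backward.isDefEq.respectTransparency false
set_option backward.defeqAttrib.useBackward true

open CategoryTheory Limits MonoidalCategory Pretriangulated Triangulated TensorProduct

namespace Pool.Agent.Run7.h312.TS

open Pool.Agent.Y116.MT Run7.h822.MT Pool.Agent.W495.FM Pool.Agent.V1178.MT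

noncomputable section

open Functor.LaxMonoidal

section

variable {C : Type} [Category.{0} C] [Preadditive C] [HasZeroObject C] [HasShift C ℤ]
  [∀ n : ℤ, (shiftFunctor C n).Additive] [Pretriangulated C] [MonoidalCategory C]
  [SymmetricCategory C] [TensorTriangulated C] [Linear ℚ C] [MonoidalPreadditive C]
  [RightRigidCategory C]
  {Λ : Type} {E : Λ → Type} [∀ l, Field (E l)] {R : ∀ l, Realisation C (E l)}
  {l₀ : Λ} [CharZero (E l₀)] {φ : (R l₀).H ⟶ (R l₀).H} {hφ : IsFrobenius (R l₀) φ}
  (hg : ∀ W : C, (nd (R l₀) hφ W).Good)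

include hg

theorem cons : Conservative (R l₀) := by
  intro X hX
  rw [IsZero.iff_id_eq_zero]
  exact faithful hg _ fun i => (hX i).eq_of_src _ _

/-- Truncations. -/
theorem trunc [IsIdempotentComplete C] {X : C} (h : HasKunneth R X) :
    ∃ (A : C) (f : A ⟶ X), ∀ l, LooksLikeTruncation (R l) f := by
  choose e he using h
  obtain ⟨N, hN⟩ := (R l₀).bounded X
  have he0 : ∀ j : ℤ, N < j.natAbs → e j = 0 := by
    intro j hj
    apply faithful hg
    intro i
    by_cases hi : i = j
    · subst hi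
      exact (hN i hj).eq_of_src _ _
    · exact (he j l₀).2 i hi
  have hN' : ∀ (l : Λ) (j : ℤ), N < j.natAbs → IsZero ((R l).H.obj (X⟦j⟧)) := by
    intro l j hj
    rw [IsZero.iff_id_eq_zero, ← (he j l).1, he0 j hj, Functor.map_zero, Functor.map_zero]
  let T : X ⟶ X := ∑ j ∈ Finset.Icc (-(N : ℤ)) 0, e j
  have hT1 : ∀ (l : Λ) (i : ℤ), 0 < i → (R l).H.map (T⟦i⟧') = 0 := by
    intro l i hi
    change (R l).H.map ((∑ j ∈ Finset.Icc (-(N : ℤ)) 0, e j)⟦i⟧') = _
    rw [Functor.map_sum, Functor.map_sum]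
    refine Finset.sum_eq_zero fun j hj => (he j l).2 i ?_
    rw [Finset.mem_Icc] at hj
    omega
  have hT2 : ∀ (l : Λ) (i : ℤ), i ≤ 0 → (R l).H.map (T⟦i⟧') = 𝟙 _ := by
    intro l i hi
    by_cases hiN : N < i.natAbs
    · exact (hN' l i hiN).eq_of_src _ _
    · change (R l).H.map ((∑ j ∈ Finset.Icc (-(N : ℤ)) 0, e j)⟦i⟧') = _
      rw [Functor.map_sum, Functor.map_sum, Finset.sum_eq_single i]
      · exact (he i l).1
      · intro j _ hj
        exact (he j l).2 i (Ne.symm hj)
      · intro h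
        exfalso
        apply h
        rw [Finset.mem_Icc]
        omega
  have hid : T ≫ T = T := by
    apply faithful_sub hg
    intro n
    rw [map_shift_comp]
    rcases le_or_gt n 0 with hn | hn
    · rw [hT2 l₀ n hn, Category.id_comp]
    · rw [hT1 l₀ n hn, zero_comp]
  obtain ⟨A, i, r, hir, hri⟩ := IsIdempotentComplete.idempotents_split X T hid
  refine ⟨A, i, fun l => ⟨fun n hn => ?_, fun n hn => ?_⟩⟩
  · have h1 : 𝟙 A = i ≫ T ≫ r := by
      rw [← hri, Category.assoc, hir, Category.comp_id, hir]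
    rw [IsZero.iff_id_eq_zero, ← CategoryTheory.Functor.map_id, ← CategoryTheory.Functor.map_id,
      h1, map_shift_comp, map_shift_comp, hT1 l n hn, zero_comp, comp_zero]
  · refine ⟨(R l).H.map (r⟦n⟧'), ?_, ?_⟩
    · rw [← map_shift_comp, hir, CategoryTheory.Functor.map_id, CategoryTheory.Functor.map_id]
    · rw [← map_shift_comp, hri, hT2 l n hn]

end

section

variable {C : Type} [Category.{0} C] [Preadditive C] [HasZeroObject C] [HasShift C ℤ]
  [∀ n : ℤ, (shiftFunctor C n).Additive] [Pretriangulated C] [IsTriangulated C]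
  [MonoidalCategory C] [SymmetricCategory C] [TensorTriangulated C]
  [MonoidalPreadditive C] [RightRigidCategory C]
  {Λ : Type} {E : Λ → Type} [∀ l, Field (E l)] {R : ∀ l, Realisation C (E l)} {l₀ : Λ}

/-- Conservativity for one realisation and truncations for all of them give a motivic
t-structure. -/
theorem exists_of_trunc (hc : Conservative (R l₀))
    (h : ∀ X : C, ∃ (A : C) (f : A ⟶ X), ∀ l, LooksLikeTruncation (R l) f) :
    ∃ t : TStructure C, IsMotivic t R := by
  have htr : ∀ X : C, ∃ (A : C) (f : A ⟶ X), LooksLikeTruncation (R l₀) f := by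
    intro X
    obtain ⟨A, f, hf⟩ := h X
    exact ⟨A, f, hf l₀⟩
  have h0 := motivic_tOf (R := R l₀) hc htr
  refine ⟨tOf (R l₀) hc htr, h0.nondeg_le, h0.nondeg_ge, h0.tensor_le, h0.tensor_ge, ?_, ?_⟩
  · intro l X hX i hi
    obtain ⟨A, f, hf⟩ := h X
    have h1 : IsIso f := by
      apply isIso_of_H hc
      intro j
      rcases le_or_gt j 0 with hj | hj
      · exact (hf l₀).nonpos j hj
      · exact ⟨0, ((hf l₀).pos j hj).eq_of_src _ _, (hX j hj).eq_of_src _ _⟩
    exact ((hf l).pos i hi).of_iso ((R l).H.mapIso ((shiftFunctor C i).mapIso (asIso f).symm))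
  · intro l X hX i hi
    obtain ⟨A, f, hf⟩ := h (X⟦(-1 : ℤ)⟧)
    have h1 : IsZero A := by
      apply hc
      intro j
      rcases le_or_gt j 0 with hj | hj
      · have h2 := (hf l₀).nonpos j hj
        exact (hX (-1 + j) (by omega)).of_iso (asIso ((R l₀).H.map (f⟦j⟧')) ≪≫
          (R l₀).H.mapIso ((shiftFunctorAdd C (-1) j).app X).symm)
      · exact (hf l₀).pos j hj
    have h2 := (hf l).nonpos (i + 1) (by omega)
    have h3 : IsZero ((R l).H.obj (A⟦i + 1⟧)) :=
      (R l).H.map_isZero ((shiftFunctor C (i + 1)).map_isZero h1)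
    exact h3.of_iso ((R l).H.mapIso ((shiftFunctorAdd' C (-1) (i + 1) i (by ring)).app X) ≪≫
      (asIso ((R l).H.map (f⟦i + 1⟧'))).symm)

end

section

variable {C : Type} [Category.{0} C] [Preadditive C] [HasZeroObject C] [HasShift C ℤ]
  [∀ n : ℤ, (shiftFunctor C n).Additive] [Pretriangulated C]
  [MonoidalCategory C] [SymmetricCategory C] [TensorTriangulated C] [Linear ℚ C]
  [MonoidalPreadditive C] [RightRigidCategory C] [IsIdempotentComplete C]
  {Λ : Type} {E : Λ → Type} [∀ l, Field (E l)] {R : ∀ l, Realisation C (E l)}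
  {l₀ : Λ} [CharZero (E l₀)] {φ : (R l₀).H ⟶ (R l₀).H}

/-- The conjecture of Tate and Beilinson for the generators gives conservativity, truncations, and
all morphisms are von Neumann regular. -/
theorem of_tb (hφ : IsFrobenius (R l₀) φ) {S : ObjectProperty C} {tw : ℤ → C}
    (hS : IsGeneratedBy S tw R) (hTB : ∀ X, S X → TB (homology (R l₀) φ tw) X) :
    Conservative (R l₀) ∧ (∀ X : C, ∃ (A : C) (f : A ⟶ X), ∀ l, LooksLikeTruncation (R l) f) ∧
      ∀ (X Y : C) (f : X ⟶ Y), ∃ g : Y ⟶ X, f ≫ g ≫ f = f := by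
  have h1 : ∀ X : C, AllGood (R l₀) hφ X := hS.generates _ (allGood_thick (R l₀) hφ)
    fun X n hX => allGood_of_tb (R l₀) hφ (hTB X hX) n
  have hg : ∀ W : C, (nd (R l₀) hφ W).Good := fun W =>
    good_of_iso (R l₀) hφ ((shiftFunctorZero C ℤ).app W).symm (h1 W 0)
  have hK : ∀ X : C, HasKunneth R X := hS.generates _ (kunneth_thick hg)
    fun X n hX => (hS.kunneth X hX).twist (hS.deg n)
  exact ⟨cons hg, fun X => trunc hg (hK X), fun X Y f => regular hg (hK X) (hK Y) f⟩

end

end

end Pool.Agent.Run7.h312.TS
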