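import Pool.Agent.Run7.h312.TS.Faith

/-!
# Duals of objects in degree zero and the pairing of homomorphisms
-/

set_option autoImplicit false
set_option linter.unusedSectionVars false
set_option linter.unusedSimpArgs false
set_option backward.isDefEq.respectTransparency false
set_option backward.defeqAttrib.useBackward true

open CategoryTheory Limits MonoidalCategory Pretriangulated Triangulated TensorProduct

namespace Pool.Agent.Run7.h312.TS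

open Pool.Agent.Y116.MT Run7.h822.MT Pool.Agent.W495.FM

noncomputable section

open Functor.LaxMonoidal

universe v u w

section

variable {C : Type u} [Category.{v} C] [Preadditive C] [HasZeroObject C] [HasShift C ℤ]
  [∀ n : ℤ, (shiftFunctor C n).Additive] [Pretriangulated C] [MonoidalCategory C]
  [SymmetricCategory C] [TensorTriangulated C] [MonoidalPreadditive C] [RightRigidCategory C]
  {E : Type w} [Field E] {R : Realisation C E}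

lemma H_tensor_dual_zero {X : C} (hX : R.Deg X 0) {S : C} (hS : IsZero (R.H.obj S)) :
    IsZero (R.H.obj (S ⊗ Xᘁ)) := by
  let κ : (S ⊗ Xᘁ) ⊗ X ⟶ S := (α_ S Xᘁ X).hom ≫ S ◁ ε_ X Xᘁ ≫ (ρ_ S).hom
  have h1 : 𝟙 (S ⊗ Xᘁ) = (ρ_ (S ⊗ Xᘁ)).inv ≫ (S ⊗ Xᘁ) ◁ η_ X Xᘁ ≫ (α_ (S ⊗ Xᘁ) X Xᘁ).inv ≫
      κ ▷ Xᘁ := by
    have h2 : (Xᘁ : C) ◁ η_ X Xᘁ ≫ (α_ Xᘁ X Xᘁ).inv ≫ ε_ X Xᘁ ▷ (Xᘁ : C) =
        (ρ_ (Xᘁ : C)).hom ≫ (λ_ (Xᘁ : C)).inv := ExactPairing.coevaluation_evaluation X Xᘁ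
    have h3 : (ρ_ (S ⊗ Xᘁ)).inv ≫ (S ⊗ Xᘁ) ◁ η_ X Xᘁ ≫ (α_ (S ⊗ Xᘁ) X Xᘁ).inv ≫ κ ▷ Xᘁ =
        S ◁ ((ρ_ (Xᘁ : C)).inv ≫ (Xᘁ : C) ◁ η_ X Xᘁ ≫ (α_ Xᘁ X Xᘁ).inv ≫ ε_ X Xᘁ ▷ (Xᘁ : C) ≫
          (λ_ (Xᘁ : C)).hom) := by
      simp only [κ]
      monoidal
    rw [h3, reassoc_of% h2]
    simp
  have hm := hX.isIso_mu Xᘁ
  have hκ : R.H.map κ = 0 := hS.eq_of_tgt _ _
  rw [IsZero.iff_id_eq_zero, ← CategoryTheory.Functor.map_id, h1, Functor.map_comp,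
    Functor.map_comp, Functor.map_comp]
  have e1 : R.H.map (ρ_ (S ⊗ Xᘁ)).inv = (ρ_ (R.H.obj (S ⊗ Xᘁ))).inv ≫
      R.H.obj (S ⊗ Xᘁ) ◁ ε R.H ≫ μ R.H (S ⊗ Xᘁ) (𝟙_ C) := by
    rw [← cancel_mono (R.H.map (ρ_ (S ⊗ Xᘁ)).hom), ← Functor.map_comp, Iso.inv_hom_id,
      CategoryTheory.Functor.map_id, Category.assoc, Category.assoc,
      ← Functor.LaxMonoidal.right_unitality R.H, Iso.inv_hom_id]
  have e2 : R.H.map (η_ X Xᘁ) = (R.H.map (η_ X Xᘁ) ≫ inv (μ R.H X Xᘁ)) ≫ μ R.H X Xᘁ := by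
    rw [Category.assoc, IsIso.inv_hom_id, Category.comp_id]
  rw [e1, Category.assoc, Category.assoc, ← μ_natural_right_assoc, e2,
    MonoidalCategory.whiskerLeft_comp, Category.assoc]
  have e3 : R.H.obj (S ⊗ Xᘁ) ◁ μ R.H X Xᘁ ≫ μ R.H (S ⊗ Xᘁ) (X ⊗ Xᘁ) ≫
      R.H.map (α_ (S ⊗ Xᘁ) X Xᘁ).inv = (α_ (R.H.obj (S ⊗ Xᘁ)) (R.H.obj X) (R.H.obj Xᘁ)).inv ≫
      μ R.H (S ⊗ Xᘁ) X ▷ R.H.obj Xᘁ ≫ μ R.H ((S ⊗ Xᘁ) ⊗ X) Xᘁ :=
    Functor.LaxMonoidal.associativity_inv R.H _ _ _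
  rw [reassoc_of% e3, ← μ_natural_left, hκ]
  have e4 : (0 : R.H.obj ((S ⊗ Xᘁ) ⊗ X) ⟶ R.H.obj S) ▷ R.H.obj (Xᘁ : C) = 0 :=
    (tensorRight _).map_zero _ _
  rw [e4]
  simp only [zero_comp, comp_zero]

/-- The dual of an object in degree zero is in degree zero. -/
lemma deg_dual {X : C} (hX : R.Deg X 0) : R.Deg (Xᘁ) 0 := by
  intro i hi
  have h1 : IsZero (R.H.obj ((𝟙_ C)⟦i⟧)) := deg_unit i hi
  refine (H_tensor_dual_zero hX h1).of_iso (R.H.mapIso ?_)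
  exact ((lShift (𝟙_ C) (Xᘁ : C) i) ≪≫ (shiftFunctor C i).mapIso (λ_ (Xᘁ : C))).symm

/-- The copairing of the realisation of `X` and of its dual. -/
def th {X : C} (hX : R.Deg X 0) : 𝟙_ (ModuleCat.{w} E) ⟶ R.H.obj X ⊗ R.H.obj Xᘁ :=
  letI := hX.isIso_mu Xᘁ
  ε R.H ≫ R.H.map (η_ X Xᘁ) ≫ inv (μ R.H X Xᘁ)

/-- The pairing of the realisation of `X` and of its dual. -/
def pp (R : Realisation C E) (X : C) : R.H.obj Xᘁ ⊗ R.H.obj X ⟶ 𝟙_ (ModuleCat.{w} E) :=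
  μ R.H Xᘁ X ≫ R.H.map (ε_ X Xᘁ) ≫ inv (ε R.H)

lemma zigzag {X : C} (hX : R.Deg X 0) :
    th hX ▷ R.H.obj X ≫ (α_ (R.H.obj X) (R.H.obj Xᘁ) (R.H.obj X)).hom ≫ R.H.obj X ◁ pp R X =
      (λ_ (R.H.obj X)).hom ≫ (ρ_ (R.H.obj X)).inv := by
  have h1 := hX.isIso_mu Xᘁ
  simp only [th, pp]
  rw [← cancel_mono (ρ_ (R.H.obj X)).hom]
  simp only [Category.assoc, Iso.inv_hom_id, Category.comp_id]
  have h3 : (ρ_ (R.H.obj X)).hom = R.H.obj X ◁ ε R.H ≫ μ R.H X (𝟙_ C) ≫ R.H.map (ρ_ X).hom :=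
    Functor.LaxMonoidal.right_unitality R.H X
  rw [h3]
  simp only [comp_whiskerRight, MonoidalCategory.whiskerLeft_comp, Category.assoc]
  have h4 : R.H.obj X ◁ inv (ε R.H) ≫ R.H.obj X ◁ ε R.H = 𝟙 _ := by
    rw [← MonoidalCategory.whiskerLeft_comp, IsIso.inv_hom_id, MonoidalCategory.whiskerLeft_id]
  rw [reassoc_of% h4, μ_natural_right_assoc]
  have h5 := Functor.LaxMonoidal.associativity (F := R.H) X Xᘁ X
  have h6 : (inv (μ R.H X Xᘁ) ▷ R.H.obj X) ≫ (μ R.H X Xᘁ ▷ R.H.obj X) = 𝟙 _ := by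
    rw [← comp_whiskerRight, IsIso.inv_hom_id, id_whiskerRight]
  rw [← reassoc_of% h5, reassoc_of% h6, μ_natural_left_assoc, ← Functor.map_comp,
    ← Functor.map_comp, ← Functor.map_comp]
  have h7 : η_ X Xᘁ ▷ X ≫ (α_ X Xᘁ X).hom ≫ X ◁ ε_ X Xᘁ ≫ (ρ_ X).hom = (λ_ X).hom := by
    rw [ExactPairing.evaluation_coevaluation_assoc]
    simp
  rw [h7]
  exact (Functor.LaxMonoidal.left_unitality R.H X).symm

/-- The element of the realisation of the dual given by a functional. -/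
def dualElt {X : C} (hX : R.Deg X 0) (f : R.H.obj X →ₗ[E] E) : R.H.obj Xᘁ :=
  TensorProduct.lid E (R.H.obj Xᘁ) (f.rTensor (R.H.obj Xᘁ) ((th hX).hom (1 : E)))

/-- The pairing as a bilinear map. -/
def bp (R : Realisation C E) (X : C) (u : R.H.obj Xᘁ) (x : R.H.obj X) : E :=
  (pp R X).hom (u ⊗ₜ[E] x : R.H.obj Xᘁ ⊗[E] R.H.obj X)

lemma bp_dualElt {X : C} (hX : R.Deg X 0) (f : R.H.obj X →ₗ[E] E) (x : R.H.obj X) :
    bp R X (dualElt hX f) x = f x := by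
  have h1 := vec_trace (th hX) (pp R X) (zigzag hX) (ModuleCat.ofHom (f.smulRight x))
  rw [ModuleCat.hom_ofHom, LinearMap.trace_smulRight] at h1
  rw [← h1]
  have h2 : ∀ t : R.H.obj X ⊗[E] R.H.obj Xᘁ,
      (pp R X).hom ((TensorProduct.lid E (R.H.obj Xᘁ) (f.rTensor (R.H.obj Xᘁ) t)) ⊗ₜ[E] x :
        R.H.obj Xᘁ ⊗[E] R.H.obj X) =
      (pp R X).hom (TensorProduct.comm E _ _ ((f.smulRight x).rTensor (R.H.obj Xᘁ) t)) := by
    intro t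
    induction t using TensorProduct.induction_on with
    | zero => simp only [map_zero, TensorProduct.zero_tmul]
    | add a b ha hb => simp only [map_add, TensorProduct.add_tmul, ha, hb]
    | tmul v w =>
      congr 1
      simp only [LinearMap.rTensor_tmul, TensorProduct.lid_tmul, LinearMap.smulRight_apply,
        TensorProduct.comm_tmul]
      rw [TensorProduct.smul_tmul]
  exact h2 _

end

section

variable {V : Type*} {Ω : Type*} [Field Ω] [AddCommGroup V] [Module Ω V]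

/-- Invariant functionals. -/
lemma exists_functional (F : V →ₗ[Ω] V) (hs : ∀ v, F (F v - v) = F v - v → F v = v) {e : V}
    (he : F e = e) (he0 : e ≠ 0) : ∃ f : V →ₗ[Ω] Ω, (∀ v, f (F v) = f v) ∧ f e ≠ 0 := by
  have h1 : e ∉ LinearMap.range (F - LinearMap.id : V →ₗ[Ω] V) := by
    rintro ⟨v, hv⟩
    rw [LinearMap.sub_apply, LinearMap.id_apply] at hv
    have h2 := hs v (by rw [hv, he])
    rw [h2, sub_self] at hv
    exact he0 hv.symm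
  obtain ⟨f, hf, hf'⟩ := Submodule.exists_dual_map_eq_bot_of_notMem h1 inferInstance
  refine ⟨f, fun v => ?_, hf⟩
  have h2 : f ((F - LinearMap.id : V →ₗ[Ω] V) v) ∈
      (LinearMap.range (F - LinearMap.id : V →ₗ[Ω] V)).map f :=
    Submodule.mem_map_of_mem ⟨v, rfl⟩
  rw [hf', Submodule.mem_bot, LinearMap.sub_apply, LinearMap.id_apply, map_sub, sub_eq_zero] at h2
  exact h2

end

end

end Pool.Agent.Run7.h312.TS
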