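import Pool.Agent.Run7.h312.TS.Pair

/-!
# Von Neumann regularity of the morphisms between objects in the same degree
-/

set_option autoImplicit false
set_option linter.unusedSectionVars false
set_option linter.unusedSimpArgs false
set_option backward.isDefEq.respectTransparency false
set_option backward.defeqAttrib.useBackward true

open CategoryTheory Limits MonoidalCategory Pretriangulated Triangulated TensorProduct

namespace Pool.Agent.Run7.h312.TS

open Pool.Agent.Y116.MT Run7.h822.MT Pool.Agent.W495.FM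

noncomputable section

open Functor.LaxMonoidal

section

variable {C : Type} [Category.{0} C] [Preadditive C] [HasZeroObject C] [HasShift C ℤ]
  [∀ n : ℤ, (shiftFunctor C n).Additive] [Pretriangulated C] [MonoidalCategory C]
  [SymmetricCategory C] [TensorTriangulated C] [Linear ℚ C] [MonoidalPreadditive C]
  [RightRigidCategory C]
  {Ω : Type} [Field Ω] [CharZero Ω] {R : Realisation C Ω} {φ : R.H ⟶ R.H} {hφ : IsFrobenius R φ}

include hφ in
/-- The copairing is invariant. -/
lemma th_inv {X : C} (hX : R.Deg X 0) :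
    th hX ≫ (φ.app X ⊗ₘ φ.app (Xᘁ : C)) = th hX := by
  have h1 := hX.isIso_mu Xᘁ
  rw [← cancel_mono (μ R.H X Xᘁ), Category.assoc, ← hφ.tensor]
  simp only [th, Category.assoc]
  rw [IsIso.inv_hom_id_assoc, IsIso.inv_hom_id, Category.comp_id, φ.naturality,
    reassoc_of% hφ.unit]

include hφ in
/-- The element of an invariant functional is invariant. -/
lemma dualElt_inv {X : C} (hX : R.Deg X 0) (f : R.H.obj X →ₗ[Ω] Ω)
    (hf : ∀ v, f ((φ.app X).hom v) = f v) :
    (φ.app (Xᘁ : C)).hom (dualElt hX f) = dualElt hX f := by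
  have h1 : ∀ t : R.H.obj X ⊗[Ω] R.H.obj Xᘁ,
      (φ.app (Xᘁ : C)).hom (TensorProduct.lid Ω (R.H.obj Xᘁ) (f.rTensor (R.H.obj Xᘁ) t)) =
      TensorProduct.lid Ω (R.H.obj Xᘁ) (f.rTensor (R.H.obj Xᘁ)
        (TensorProduct.map (φ.app X).hom (φ.app (Xᘁ : C)).hom t)) := by
    intro t
    induction t using TensorProduct.induction_on with
    | zero => simp only [map_zero]
    | add a b ha hb => simp only [map_add, ha, hb]
    | tmul v w =>
      simp only [LinearMap.rTensor_tmul, TensorProduct.lid_tmul, TensorProduct.map_tmul, hf,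
        map_smul]
  have h2 : TensorProduct.map (φ.app X).hom (φ.app (Xᘁ : C)).hom ((th hX).hom (1 : Ω)) =
      (th hX).hom (1 : Ω) :=
    LinearMap.congr_fun (congrArg ModuleCat.Hom.hom (th_inv (hφ := hφ) hX)) (1 : Ω)
  rw [dualElt, h1, h2]

/-- The morphism to the unit given by a morphism from the unit to the dual. -/
def mate {X : C} (z : 𝟙_ C ⟶ (Xᘁ : C)) : X ⟶ 𝟙_ C := (λ_ X).inv ≫ z ▷ X ≫ ε_ X Xᘁ

lemma bp_rg {X : C} (z : 𝟙_ C ⟶ (Xᘁ : C)) (x : R.H.obj X) :
    bp R X (rg R z) x = (R.H.map (mate z) ≫ inv (ε R.H)).hom x := by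
  have e1 : R.H.map (λ_ X).inv = (λ_ (R.H.obj X)).inv ≫ ε R.H ▷ R.H.obj X ≫ μ R.H (𝟙_ C) X := by
    rw [← cancel_mono (R.H.map (λ_ X).hom), ← Functor.map_comp, Iso.inv_hom_id,
      CategoryTheory.Functor.map_id, Category.assoc, Category.assoc,
      ← Functor.LaxMonoidal.left_unitality R.H, Iso.inv_hom_id]
  have e2 : R.H.map (mate z) ≫ inv (ε R.H) =
      (λ_ (R.H.obj X)).inv ≫ (ε R.H ≫ R.H.map z) ▷ R.H.obj X ≫ pp R X := by
    simp only [mate, pp, Functor.map_comp, e1, Category.assoc, comp_whiskerRight]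
    rw [μ_natural_left_assoc]
  rw [e2]
  rfl

/-- A morphism from the unit to an object in degree zero is detected by morphisms to the unit. -/
theorem exists_pair (hg : ∀ W : C, (nd R hφ W).Good) {W : C} (hW : R.Deg W 0) {s : 𝟙_ C ⟶ W}
    (hs : s ≠ 0) : ∃ r : W ⟶ 𝟙_ C, s ≫ r ≠ 0 := by
  by_contra hcon
  push Not at hcon
  have h1 := rg_ne_zero (hg W) hs
  obtain ⟨f, hf, hf'⟩ := exists_functional (φ.app W).hom ((nd R hφ W).good_iff.1 (hg W)).2.2
    (frob_rg R hφ s) h1
  have h2 := dualElt_inv (hφ := hφ) hW f hf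
  have h3 : dualElt hW f ∈ Submodule.span Ω (Set.range (rg R (W := (Wᘁ : C)))) :=
    (((nd R hφ (Wᘁ : C)).good_iff.1 (hg _)).1 _).1 h2
  have h4 : ∀ u ∈ Submodule.span Ω (Set.range (rg R (W := (Wᘁ : C)))), bp R W u (rg R s) = 0 := by
    intro u hu
    induction hu using Submodule.span_induction with
    | mem x hx =>
      obtain ⟨z, rfl⟩ := hx
      rw [bp_rg, ModuleCat.hom_comp, LinearMap.comp_apply, ← rg_comp, hcon]
      have : rg R (0 : 𝟙_ C ⟶ 𝟙_ C) = 0 := by
        rw [rg, Functor.map_zero]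
        rfl
      rw [this, map_zero]
    | zero => rw [bp, TensorProduct.zero_tmul, map_zero]
    | add x y _ _ hx hy =>
      rw [bp, TensorProduct.add_tmul, map_add]
      rw [bp] at hx hy
      rw [hx, hy, add_zero]
    | smul c x _ hx =>
      rw [bp, ← TensorProduct.smul_tmul', map_smul]
      rw [bp] at hx
      rw [hx, smul_zero]
  exact hf' ((bp_dualElt hW f _).symm.trans (h4 _ h3))

/-- The trace pairing is non-degenerate. -/
theorem exists_tr_ne (hg : ∀ W : C, (nd R hφ W).Good) {X : C} (hX : R.Deg X 0) {a : X ⟶ X}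
    (ha : a ≠ 0) : ∃ b : X ⟶ X, tr (a ≫ b) ≠ 0 := by
  have h1 : nm a ≠ 0 := fun h => ha (eq_zero_of_nm a h)
  have hd : R.Deg (X ⊗ Xᘁ) 0 := by
    have := hX.tensor (deg_dual hX)
    rwa [add_zero] at this
  obtain ⟨r, hr⟩ := exists_pair hg hd h1
  obtain ⟨b, hb⟩ := exists_tr r
  exact ⟨b, by rwa [← hb]⟩

/-- The endomorphisms of the unit are the rational numbers. -/
theorem unit_scalar (hg : ∀ W : C, (nd R hφ W).Good) (z : 𝟙_ C ⟶ 𝟙_ C) :
    ∃ q : ℚ, z = q • 𝟙 (𝟙_ C) := by
  by_contra hcon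
  push Not at hcon
  have h0 : (𝟙 (𝟙_ C)) ≠ 0 := fun h => not_isZero_unit R ((IsZero.iff_id_eq_zero _).2 h)
  have h1 : LinearIndependent ℚ ![𝟙 (𝟙_ C), z] := by
    rw [LinearIndependent.pair_iff' h0]
    intro a ha
    exact hcon a ha.symm
  have h2 := ((nd R hφ (𝟙_ C)).good_iff.1 (hg _)).2.1 2 _ h1
  have h3 : Module.finrank Ω (R.H.obj (𝟙_ C)) = 1 := by
    have h4 : Module.finrank Ω (R.H.obj (𝟙_ C)) = Module.finrank Ω Ω :=
      (LinearEquiv.finrank_eq (asIso (ε R.H)).toLinearEquiv).symm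
    rwa [Module.finrank_self] at h4
  have h4 := h2.fintype_card_le_finrank
  rw [Fintype.card_fin] at h4
  have h5 : Module.finrank Ω (nd R hφ (𝟙_ C)).E = 1 := h3
  omega

end

end

end Pool.Agent.Run7.h312.TS
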