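import Pool.Agent.Run7.h312.TS.Reg
import Pool.Agent.Y116.MT.Semi

/-!
# Von Neumann regularity
-/

set_option autoImplicit false
set_option linter.unusedSectionVars false
set_option linter.unusedSimpArgs false
set_option backward.isDefEq.respectTransparency false
set_option backward.defeqAttrib.useBackward true

open CategoryTheory Limits MonoidalCategory Pretriangulated Triangulated TensorProduct

namespace Pool.Agent.Run7.h312.TS

open Pool.Agent.Y116.MT Run7.h822.MT Pool.Agent.W495.FM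

noncomputable section

open Functor.LaxMonoidal

section

variable {C : Type} [Category.{0} C] [Preadditive C] [HasZeroObject C] [HasShift C ℤ]
  [∀ n : ℤ, (shiftFunctor C n).Additive] [Pretriangulated C] [MonoidalCategory C]
  [SymmetricCategory C] [TensorTriangulated C] [Linear ℚ C] [MonoidalPreadditive C]
  [RightRigidCategory C]
  {Ω : Type} [Field Ω] [CharZero Ω] {R : Realisation C Ω} {φ : R.H ⟶ R.H} {hφ : IsFrobenius R φ}

lemma tr_add {X : C} (a b : X ⟶ X) : tr (a + b) = tr a + tr b := by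
  simp only [tr, MonoidalPreadditive.add_whiskerRight, Preadditive.add_comp,
    Preadditive.comp_add]

/-- The trace as an additive map. -/
def trA (X : C) : End X →+ (𝟙_ C ⟶ 𝟙_ C) :=
  AddMonoidHom.mk' (fun a : End X => tr (X := X) a) fun a b => tr_add (X := X) a b

/-- The scalars as a linear equivalence with the endomorphisms of the unit. -/
def scal (hg : ∀ W : C, (nd R hφ W).Good) : ℚ ≃ₗ[ℚ] (𝟙_ C ⟶ 𝟙_ C) :=
  LinearEquiv.ofBijective (LinearMap.toSpanSingleton ℚ _ (𝟙 (𝟙_ C))) (by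
    constructor
    · rw [injective_iff_map_eq_zero]
      intro q hq
      rw [LinearMap.toSpanSingleton_apply, smul_eq_zero] at hq
      exact hq.resolve_right fun h => not_isZero_unit R ((IsZero.iff_id_eq_zero _).2 h)
    · intro z
      obtain ⟨q, hq⟩ := unit_scalar hg z
      exact ⟨q, by rw [LinearMap.toSpanSingleton_apply, hq]⟩)

/-- The rational trace. -/
def tau (hg : ∀ W : C, (nd R hφ W).Good) (X : C) : End X →ₗ[ℚ] ℚ :=
  (scal hg).symm.toLinearMap ∘ₗ (trA X).toRatLinearMap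

lemma tau_spec (hg : ∀ W : C, (nd R hφ W).Good) {X : C} (a : End X) :
    tr (X := X) a = tau hg X a • 𝟙 (𝟙_ C) := by
  have h1 : scal hg (tau hg X a) = tr (X := X) a :=
    (scal hg).apply_symm_apply _
  rw [← h1]
  rfl

/-- The representation on the realisation. -/
def rho (R : Realisation C Ω) (X : C) : End X →+* Module.End Ω (R.H.obj X) where
  toFun a := (R.H.map (a : X ⟶ X)).hom
  map_one' := by
    change (R.H.map (𝟙 X)).hom = _
    rw [CategoryTheory.Functor.map_id]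
    rfl
  map_mul' a b := by
    change (R.H.map ((b : X ⟶ X) ≫ (a : X ⟶ X))).hom = _
    rw [Functor.map_comp]
    rfl
  map_zero' := by
    change (R.H.map (0 : X ⟶ X)).hom = _
    rw [Functor.map_zero]
    rfl
  map_add' a b := by
    change (R.H.map ((a : X ⟶ X) + (b : X ⟶ X))).hom = _
    rw [Functor.map_add]
    rfl

lemma scalar_rat (R : Realisation C Ω) (q : ℚ) :
    (ε R.H ≫ R.H.map (q • 𝟙 (𝟙_ C)) ≫ inv (ε R.H)).hom (1 : Ω) = algebraMap ℚ Ω q := by
  let ψ : ℚ →+ Ω := AddMonoidHom.mk'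
    (fun q => ((ε R.H ≫ R.H.map (q • 𝟙 (𝟙_ C)) ≫ inv (ε R.H)).hom (1 : Ω) : Ω)) fun a b => by
      rw [add_smul, Functor.map_add, Preadditive.add_comp, Preadditive.comp_add]
      rfl
  have h1 : ψ 1 = (1 : Ω) := by
    change ((ε R.H ≫ R.H.map ((1 : ℚ) • 𝟙 (𝟙_ C)) ≫ inv (ε R.H)).hom (1 : Ω) : Ω) = (1 : Ω)
    rw [one_smul, CategoryTheory.Functor.map_id, Category.id_comp, IsIso.hom_inv_id]
    rfl
  have h2 : ψ q = q • ψ 1 := by
    have h3 := (ψ.toRatLinearMap).map_smul q 1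
    rw [smul_eq_mul, mul_one] at h3
    exact h3
  change ψ q = _
  rw [h2, h1, Algebra.smul_def, mul_one]

/-- The endomorphism rings of objects in degree zero are von Neumann regular. -/
theorem end_regular (hg : ∀ W : C, (nd R hφ W).Good) {X : C} (hX : R.Deg X 0) (a : X ⟶ X) :
    ∃ b : X ⟶ X, a ≫ b ≫ a = a := by
  have hτ : ∀ a : End X, LinearMap.trace Ω (R.H.obj X) (rho R X a) = algebraMap ℚ Ω (tau hg X a) := by
    intro a
    have h1 := H_trace hX (a : X ⟶ X)
    rw [tau_spec hg, scalar_rat] at h1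
    exact h1.symm
  have hcyc : ∀ a b : End X, tau hg X (a * b) = tau hg X (b * a) := by
    intro a b
    apply (algebraMap ℚ Ω).injective
    rw [← hτ, ← hτ, map_mul (rho R X), map_mul (rho R X), LinearMap.trace_mul_comm]
  have hnd : ∀ a : End X, a ≠ 0 → ∃ b, tau hg X (a * b) ≠ 0 := by
    intro a ha
    obtain ⟨b, hb⟩ := exists_tr_ne hg hX (a := (a : X ⟶ X)) ha
    let b' : End X := b
    refine ⟨b', fun h => hb ?_⟩
    have h1 := tau_spec hg (X := X) (b' * a)
    rw [hcyc, h, zero_smul] at h1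
    exact h1
  let a' : End X := a
  obtain ⟨b, hb⟩ := regular_of_trace (rho R X) (tau hg X) hτ hnd a'
  exact ⟨b, hb⟩

lemma deg_biprod {X Y : C} {d : ℤ} (hX : R.Deg X d) (hY : R.Deg Y d) : R.Deg (X ⊞ Y) d := by
  intro i hi
  have h1 : 𝟙 ((X ⊞ Y)⟦i⟧) = (biprod.fst ≫ biprod.inl : X ⊞ Y ⟶ X ⊞ Y)⟦i⟧' +
      (biprod.snd ≫ biprod.inr : X ⊞ Y ⟶ X ⊞ Y)⟦i⟧' := by
    rw [← Functor.map_add, biprod.total, CategoryTheory.Functor.map_id]
  rw [IsZero.iff_id_eq_zero, ← CategoryTheory.Functor.map_id, h1, Functor.map_add,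
    Functor.map_comp, Functor.map_comp, Functor.map_comp, Functor.map_comp,
    (hX i hi).eq_of_tgt (R.H.map ((biprod.fst : X ⊞ Y ⟶ X)⟦i⟧')) 0,
    (hY i hi).eq_of_tgt (R.H.map ((biprod.snd : X ⊞ Y ⟶ Y)⟦i⟧')) 0, zero_comp, zero_comp,
    add_zero]

theorem regular_zero (hg : ∀ W : C, (nd R hφ W).Good) {X Y : C} (hX : R.Deg X 0)
    (hY : R.Deg Y 0) (f : X ⟶ Y) : ∃ g : Y ⟶ X, f ≫ g ≫ f = f := by
  obtain ⟨b, hb⟩ := end_regular hg (deg_biprod hX hY) (biprod.fst ≫ f ≫ biprod.inr)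
  refine ⟨biprod.inr ≫ b ≫ biprod.fst, ?_⟩
  have h1 := congrArg (fun k => biprod.inl ≫ k ≫ biprod.snd) hb
  simpa using h1

/-- Regularity of the morphisms between objects in the same degree. -/
theorem regular_deg (hg : ∀ W : C, (nd R hφ W).Good) {d : ℤ} {X Y : C} (hX : R.Deg X d)
    (hY : R.Deg Y d) (f : X ⟶ Y) : ∃ g : Y ⟶ X, f ≫ g ≫ f = f := by
  obtain ⟨b, hb⟩ := regular_zero hg (hX.shift d 0 (by ring)) (hY.shift d 0 (by ring)) (f⟦d⟧')
  obtain ⟨g, rfl⟩ := (shiftFunctor C d).map_surjective b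
  exact ⟨g, (shiftFunctor C d).map_injective (by rw [Functor.map_comp, Functor.map_comp, hb])⟩

end

end

end Pool.Agent.Run7.h312.TS
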